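import Pool.Agent.Lib_helper32.InvC.Defs

/-!
Theorem C (MP_38cb64_an), part G3: tangent lines are null.
-/

set_option autoImplicit false

namespace InvC

open Set Filter Topology MeasureTheory Asymptotics
open scoped RealInnerProductSpace ContDiff Gradient

namespace G3

variable {n : ℕ}

theorem inner_gradient (f : Vn n → ℝ) (y ξ : Vn n) : ⟪∇ f y, ξ⟫ = fderiv ℝ f y ξ := by
  unfold gradient
  rw [InnerProductSpace.toDual_symm_apply]

theorem contDiffAt {S W : Set (Vn n)} {f : Vn n → ℝ} (h : LocalEq S W f) {y : Vn n}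
    (hy : y ∈ W) : ContDiffAt ℝ ∞ f y :=
  (h.smooth y hy).contDiffAt (h.isOpen.mem_nhds hy)

theorem grad {S W : Set (Vn n)} {f : Vn n → ℝ} (h : LocalEq S W f) {y : Vn n}
    (hy : y ∈ W) : ContDiffAt ℝ ∞ (fun y => ∇ f y) y := by
  have h1 : ContDiffAt ℝ ∞ (fderiv ℝ f) y := (contDiffAt h hy).fderiv_right (by simp)
  exact ((InnerProductSpace.toDual ℝ (Vn n)).symm.toContinuousLinearEquiv.contDiff).contDiffAt.comp
    y h1

theorem haar_Qn : (volume : Measure (Qn n)).IsAddHaarMeasure := by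
  rw [Measure.volume_eq_prod]
  infer_instance

/-- the set of the states which touch a level set in `U` -/
def Tang (f : Vn n → ℝ) (U : Set (Vn n)) : Set (Qn n) :=
  {ℓ : Qn n | ∃ τ : ℝ, pos τ ℓ ∈ U ∧ f (pos τ ℓ) = 0 ∧ ⟪∇ f (pos τ ℓ), ℓ.2⟫ = 0}

theorem null_hyper {w0 : Vn n} (hw0 : w0 ≠ 0) : volume {p : Qn n | ⟪w0, p.2⟫ = 0} = 0 := by
  have := haar_Qn (n := n)
  set A : Qn n →ₗ[ℝ] ℝ := ((innerSL ℝ w0).comp (ContinuousLinearMap.snd ℝ (Vn n) (Vn n))).toLinearMap
    with hA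
  have h1 : {p : Qn n | ⟪w0, p.2⟫ = 0} = (LinearMap.ker A : Set (Qn n)) := by
    ext p
    simp [hA]
  rw [h1]
  refine Measure.addHaar_submodule _ _ ?_
  intro h
  have h2 : ((0 : Vn n), w0) ∈ LinearMap.ker A := by rw [h]; trivial
  have h3 : ⟪w0, w0⟫ = 0 := by simpa [hA] using h2
  exact hw0 (inner_self_eq_zero.mp h3)

theorem local_tangent {S W : Set (Vn n)} {f : Vn n → ℝ} (h : LocalEq S W f) {y0 : Vn n}
    (hy0 : y0 ∈ W) : ∃ U ∈ 𝓝 y0, volume (Tang f U) = 0 := by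
  set w0 := ∇ f y0 with hw0d
  have hw0 : w0 ≠ 0 := h.regular y0 hy0
  have hnn : ‖w0‖ ^ 2 ≠ 0 := pow_ne_zero 2 (norm_ne_zero_iff.mpr hw0)
  set u : Vn n := (‖w0‖ ^ 2)⁻¹ • w0 with hu
  have huw : ⟪w0, u⟫ = 1 := by
    rw [hu, inner_smul_right, real_inner_self_eq_norm_sq, inv_mul_cancel₀ hnn]
  set F : Vn n → Vn n := fun y => y + (f y - ⟪w0, y - y0⟫) • u with hF
  have hFc : ContDiffAt ℝ 1 F y0 := by
    have h1 : ContDiffAt ℝ 1 f y0 := (contDiffAt h hy0).of_le (by simp)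
    exact contDiffAt_id.add ((h1.sub (contDiffAt_const.inner ℝ (contDiffAt_id.sub
      contDiffAt_const))).smul contDiffAt_const)
  have hFd : HasFDerivAt F ((ContinuousLinearEquiv.refl ℝ (Vn n)) : Vn n →L[ℝ] Vn n) y0 := by
    have h1 : HasFDerivAt f (innerSL ℝ w0) y0 := by
      have h2 := ((contDiffAt h hy0).differentiableAt (by simp)).hasFDerivAt
      have h3 : fderiv ℝ f y0 = innerSL ℝ w0 := by
        ext ξ
        rw [innerSL_apply_apply, hw0d, inner_gradient]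
      rwa [h3] at h2
    have h4 : HasFDerivAt (fun y : Vn n => ⟪w0, y - y0⟫) (innerSL ℝ w0) y0 := by
      have := (innerSL ℝ w0).hasFDerivAt.comp y0 ((hasFDerivAt_id y0).sub_const y0)
      simpa [Function.comp_def] using this
    have h5 := (hasFDerivAt_id y0).fun_add ((h1.fun_sub h4).smul_const u)
    refine h5.congr_fderiv ?_
    ext ξ
    simp
  have hFs : HasStrictFDerivAt F ((ContinuousLinearEquiv.refl ℝ (Vn n)) : Vn n →L[ℝ] Vn n) y0 :=
    hFc.hasStrictFDerivAt' hFd (by simp)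
  set e := hFc.toOpenPartialHomeomorph F hFd (by simp) with he
  have hes : y0 ∈ e.source := hFc.mem_toOpenPartialHomeomorph_source hFd (by simp)
  have hecoe : (e : Vn n → Vn n) = F := hFc.toOpenPartialHomeomorph_coe hFd (by simp)
  have hψ : ContDiffAt ℝ 1 e.symm (F y0) := hFc.to_localInverse hFd (by simp)
  have hT : ∀ᶠ z in 𝓝 (F y0), ContDiffAt ℝ 1 e.symm z := hψ.eventually (by simp)
  have hFcont : ContinuousAt F y0 := hFc.continuousAt
  -- the neighbourhood
  have hgr : ContinuousAt (fun y => ⟪∇ f y, u⟫) y0 :=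
    ((grad h hy0).continuousAt).inner continuousAt_const
  have hgr0 : ∀ᶠ y in 𝓝 y0, ⟪∇ f y, u⟫ ≠ 0 := by
    refine hgr.eventually_ne ?_
    rw [← hw0d, huw]
    exact one_ne_zero
  set U : Set (Vn n) := {y | y ∈ e.source ∧ y ∈ W ∧ ContDiffAt ℝ 1 e.symm (F y) ∧ ⟪∇ f y, u⟫ ≠ 0}
    with hU
  refine ⟨U, ?_, ?_⟩
  · filter_upwards [e.open_source.mem_nhds hes, h.isOpen.mem_nhds hy0, hFcont.eventually hT, hgr0]
      with y h1 h2 h3 h4 using ⟨h1, h2, h3, h4⟩
  -- the map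
  set s : Vn n → ℝ := fun z => ⟪w0, z - y0⟫ with hs
  set Y : Vn n → Vn n := fun z => e.symm (z - s z • u) with hY
  set v : Qn n → Vn n := fun p => p.2 - (⟪∇ f (Y p.1), p.2⟫ / ⟪∇ f (Y p.1), u⟫) • u with hv
  set Θ : Qn n → Qn n := fun p => (Y p.1 - s p.1 • v p, v p) with hΘ
  set D : Set (Qn n) := {p | ⟪w0, p.2⟫ = 0 ∧ ContDiffAt ℝ 1 e.symm (p.1 - s p.1 • u) ∧ Y p.1 ∈ W
    ∧ ⟪∇ f (Y p.1), u⟫ ≠ 0} with hD
  have hDnull : volume D = 0 := measure_mono_null (fun p hp => hp.1) (null_hyper hw0)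
  have hdiff : DifferentiableOn ℝ Θ D := by
    rintro p ⟨-, hp1, hp2, hp3⟩
    refine DifferentiableAt.differentiableWithinAt ?_
    have d1 : DifferentiableAt ℝ (fun p : Qn n => s p.1) p := by
      simp only [hs]
      exact DifferentiableAt.inner ℝ (differentiableAt_const _) (differentiableAt_fst.sub_const _)
    have d2 : DifferentiableAt ℝ (fun p : Qn n => p.1 - s p.1 • u) p :=
      differentiableAt_fst.sub (d1.smul_const u)
    have d3 : DifferentiableAt ℝ (fun p : Qn n => Y p.1) p := by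
      have := (hp1.differentiableAt (by simp)).comp p d2
      exact this
    have d4 : DifferentiableAt ℝ (fun p : Qn n => ∇ f (Y p.1)) p := by
      have h1 : DifferentiableAt ℝ (fun y => ∇ f y) (Y p.1) := (grad h hp2).differentiableAt (by simp)
      exact DifferentiableAt.comp (g := fun y => ∇ f y) (f := fun p : Qn n => Y p.1) p h1 d3
    have d5 : DifferentiableAt ℝ (fun p : Qn n => ⟪∇ f (Y p.1), p.2⟫) p :=
      d4.inner ℝ differentiableAt_snd
    have d6 : DifferentiableAt ℝ (fun p : Qn n => ⟪∇ f (Y p.1), u⟫) p :=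
      d4.inner ℝ (differentiableAt_const _)
    have d7 : DifferentiableAt ℝ (fun p : Qn n => (⟪∇ f (Y p.1), u⟫)⁻¹) p :=
      DifferentiableAt.fun_inv d6 hp3
    have d8 : DifferentiableAt ℝ v p := by
      have := differentiableAt_snd.sub ((d5.mul d7).smul_const u)
      exact this
    exact (d3.sub (d1.smul d8)).prodMk d8
  have := haar_Qn (n := n)
  have himg : volume (Θ '' D) = 0 :=
    addHaar_image_eq_zero_of_differentiableOn_of_addHaar_eq_zero _ hdiff hDnull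
  refine measure_mono_null ?_ himg
  rintro ⟨x, ve⟩ ⟨τ, ⟨hy1, hy2, hy3, hy4⟩, hf0, hperp⟩
  set y := pos τ (x, ve) with hy
  have hFy : s (F y) = 0 := by
    simp only [hs, hF]
    rw [add_sub_right_comm, inner_add_right, inner_smul_right, huw, hf0]
    ring
  have hinv : e.symm (F y) = y := by
    have := e.left_inv hy1
    rwa [hecoe] at this
  set z := F y + τ • u with hz
  have hsz : s z = τ := by
    have : s z = s (F y) + τ * ⟪w0, u⟫ := by
      simp only [hs, hz]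
      rw [add_sub_right_comm, inner_add_right, inner_smul_right]
    rw [this, hFy, huw]
    ring
  have hzz : z - s z • u = F y := by
    rw [hsz, hz, add_sub_cancel_right]
  have hYz : Y z = y := by
    simp only [hY]
    rw [hzz, hinv]
  set q := ve - ⟪w0, ve⟫ • u with hq
  have hqw : ⟪w0, q⟫ = 0 := by
    rw [hq, inner_sub_right, inner_smul_right, huw]
    ring
  have hvq : v (z, q) = ve := by
    simp only [hv]
    rw [hYz]
    have hq2 : ⟪∇ f y, q⟫ = -(⟪w0, ve⟫ * ⟪∇ f y, u⟫) := by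
      rw [hq, inner_sub_right, inner_smul_right]
      rw [show ⟪∇ f y, ve⟫ = 0 from hperp]
      ring
    rw [hq2, hq, neg_div, mul_div_assoc, div_self hy4]
    module
  refine ⟨(z, q), ⟨hqw, ?_, ?_, ?_⟩, ?_⟩
  · show ContDiffAt ℝ 1 e.symm (z - s z • u)
    rw [hzz]
    exact hy3
  · show Y z ∈ W
    rw [hYz]
    exact hy2
  · show ⟪∇ f (Y z), u⟫ ≠ 0
    rw [hYz]
    exact hy4
  · simp only [hΘ]
    rw [hvq, hYz, hsz]
    refine Prod.ext ?_ rfl
    show y - τ • ve = x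
    rw [hy, pos]
    simp

end G3

/-- PART G3 -/
theorem tangent_null {n : ℕ} {S W : Set (Vn n)} {f : Vn n → ℝ} (h : LocalEq S W f) :
    volume {ℓ : Qn n | ∃ τ : ℝ, pos τ ℓ ∈ W ∧ f (pos τ ℓ) = 0 ∧ ⟪∇ f (pos τ ℓ), ℓ.2⟫ = 0} = 0 := by
  choose! U hU hU0 using fun y (hy : y ∈ W) => G3.local_tangent h hy
  obtain ⟨t, htW, htc, hcov⟩ := TopologicalSpace.countable_cover_nhdsWithin (s := W)
    (f := U) fun y hy => mem_nhdsWithin_of_mem_nhds (hU y hy)
  have h1 : volume (⋃ y ∈ t, G3.Tang f (U y)) = 0 :=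
    (measure_biUnion_null_iff htc).mpr fun y hy => hU0 y (htW hy)
  refine measure_mono_null ?_ h1
  rintro ℓ ⟨τ, hW, hf, hp⟩
  have h2 := hcov hW
  simp only [mem_iUnion] at h2
  obtain ⟨y, hy, hyU⟩ := h2
  exact mem_biUnion hy ⟨τ, hyU, hf, hp⟩

end InvC
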