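import Mathlib

set_option autoImplicit false

open Set Filter Topology

universe u v w

namespace Pool.Agent.Lib_helper94.Gulko

/-- data witnessing that `L` is Lindelöf Σ: a cover `C` by compact sets and a countable network `N`
modulo this cover -/
def LSData {Z : Type u} [TopologicalSpace Z] (L : Set Z) (C : Set (Set Z)) (N : ℕ → Set Z) : Prop :=
  (∀ K ∈ C, IsCompact K ∧ K ⊆ L) ∧ (∀ x ∈ L, ∃ K ∈ C, x ∈ K) ∧ (∀ n, N n ⊆ L) ∧
    ∀ K ∈ C, ∀ U, IsOpen U → K ⊆ U → ∃ n, K ⊆ N n ∧ N n ⊆ U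

/-- Lindelöf Σ subsets -/
def IsLS {Z : Type u} [TopologicalSpace Z] (L : Set Z) : Prop :=
  ∃ (C : Set (Set Z)) (N : ℕ → Set Z), LSData L C N

section basic

variable {Z : Type u} [TopologicalSpace Z] {W : Type v} [TopologicalSpace W]

theorem IsLS.image {L : Set Z} (h : IsLS L) {f : Z → W} (hf : Continuous f) : IsLS (f '' L) := by
  obtain ⟨C, N, h1, h2, h3, h4⟩ := h
  refine ⟨(fun K => f '' K) '' C, fun n => f '' N n, ?_, ?_, ?_, ?_⟩
  · rintro _ ⟨K, hK, rfl⟩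
    exact ⟨(h1 K hK).1.image hf, image_mono (h1 K hK).2⟩
  · rintro _ ⟨x, hx, rfl⟩
    obtain ⟨K, hK, hxK⟩ := h2 x hx
    exact ⟨f '' K, ⟨K, hK, rfl⟩, mem_image_of_mem f hxK⟩
  · exact fun n => image_mono (h3 n)
  · rintro _ ⟨K, hK, rfl⟩ U hU hKU
    obtain ⟨n, hn1, hn2⟩ := h4 K hK (f ⁻¹' U) (hU.preimage hf) (image_subset_iff.1 hKU)
    exact ⟨n, image_mono hn1, image_subset_iff.2 hn2⟩

theorem IsLS.iUnion {ι : Type w} [Countable ι] {L : ι → Set Z} (h : ∀ i, IsLS (L i)) :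
    IsLS (⋃ i, L i) := by
  classical
  rcases isEmpty_or_nonempty ι with hι | hι
  · refine ⟨∅, fun _ => ∅, ?_, ?_, ?_, ?_⟩
    · simp
    · intro x hx; simp at hx
    · simp
    · simp
  choose C N h1 h2 h3 h4 using h
  obtain ⟨e, he⟩ := exists_surjective_nat (ι × ℕ)
  refine ⟨⋃ i, C i, fun n => N (e n).1 (e n).2, ?_, ?_, ?_, ?_⟩
  · intro K hK
    obtain ⟨i, hi⟩ := mem_iUnion.1 hK
    exact ⟨(h1 i K hi).1, (h1 i K hi).2.trans (subset_iUnion L i)⟩
  · intro x hx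
    obtain ⟨i, hi⟩ := mem_iUnion.1 hx
    obtain ⟨K, hK, hxK⟩ := h2 i x hi
    exact ⟨K, mem_iUnion.2 ⟨i, hK⟩, hxK⟩
  · exact fun n => (h3 _ _).trans (subset_iUnion L _)
  · intro K hK U hU hKU
    obtain ⟨i, hi⟩ := mem_iUnion.1 hK
    obtain ⟨m, hm1, hm2⟩ := h4 i K hi U hU hKU
    obtain ⟨n, hn⟩ := he (i, m)
    exact ⟨n, by simp only [hn]; exact ⟨hm1, hm2⟩⟩

theorem IsLS.empty : IsLS (∅ : Set Z) :=
  ⟨∅, fun _ => ∅, by simp, by simp, by simp, by simp⟩

theorem IsLS.union {L L' : Set Z} (h : IsLS L) (h' : IsLS L') : IsLS (L ∪ L') := by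
  rw [union_eq_iUnion]
  refine IsLS.iUnion fun b => ?_
  cases b
  · exact h'
  · exact h

theorem IsLS.singleton (z : Z) : IsLS ({z} : Set Z) := by
  refine ⟨{{z}}, fun _ => {z}, ?_, ?_, ?_, ?_⟩
  · rintro K rfl; exact ⟨isCompact_singleton, subset_rfl⟩
  · intro x hx; exact ⟨{z}, rfl, hx⟩
  · exact fun _ => subset_rfl
  · rintro K rfl U _ hKU; exact ⟨0, subset_rfl, hKU⟩

theorem IsLS.prod {L : Set Z} {L' : Set W} (h : IsLS L) (h' : IsLS L') : IsLS (L ×ˢ L') := by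
  obtain ⟨C, N, h1, h2, h3, h4⟩ := h
  obtain ⟨C', N', h1', h2', h3', h4'⟩ := h'
  obtain ⟨e, he⟩ := exists_surjective_nat (ℕ × ℕ)
  refine ⟨{P | ∃ K ∈ C, ∃ K' ∈ C', P = K ×ˢ K'}, fun n => N (e n).1 ×ˢ N' (e n).2, ?_, ?_, ?_, ?_⟩
  · rintro _ ⟨K, hK, K', hK', rfl⟩
    exact ⟨(h1 K hK).1.prod (h1' K' hK').1, prod_mono (h1 K hK).2 (h1' K' hK').2⟩
  · rintro ⟨x, y⟩ ⟨hx, hy⟩
    obtain ⟨K, hK, hxK⟩ := h2 x hx
    obtain ⟨K', hK', hyK'⟩ := h2' y hy
    exact ⟨K ×ˢ K', ⟨K, hK, K', hK', rfl⟩, ⟨hxK, hyK'⟩⟩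
  · exact fun n => prod_mono (h3 _) (h3' _)
  · rintro _ ⟨K, hK, K', hK', rfl⟩ U hU hKU
    obtain ⟨u, v, hu, hv, hKu, hKv, huv⟩ :=
      generalized_tube_lemma (h1 K hK).1 (h1' K' hK').1 hU hKU
    obtain ⟨m, hm1, hm2⟩ := h4 K hK u hu hKu
    obtain ⟨m', hm1', hm2'⟩ := h4' K' hK' v hv hKv
    obtain ⟨n, hn⟩ := he (m, m')
    refine ⟨n, ?_, ?_⟩
    · simp only [hn]; exact prod_mono hm1 hm1'
    · simp only [hn]; exact (prod_mono hm2 hm2').trans huv

/-- Lindelöf property -/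
theorem IsLS.lindelof {L : Set Z} (h : IsLS L) {ι : Type w} (U : ι → Set Z)
    (hU : ∀ i, IsOpen (U i)) (hL : L ⊆ ⋃ i, U i) :
    ∃ T : Set ι, T.Countable ∧ L ⊆ ⋃ i ∈ T, U i := by
  classical
  obtain ⟨C, N, h1, h2, h3, h4⟩ := h
  -- for each `n` with `N n` contained in a finite union choose such a finite union
  have hch : ∀ n, ∃ T : Finset ι, (∃ T' : Finset ι, N n ⊆ ⋃ i ∈ T', U i) → N n ⊆ ⋃ i ∈ T, U i := by
    intro n
    by_cases hn : ∃ T' : Finset ι, N n ⊆ ⋃ i ∈ T', U i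
    · obtain ⟨T', hT'⟩ := hn
      exact ⟨T', fun _ => hT'⟩
    · exact ⟨∅, fun h => absurd h hn⟩
  choose T hT using hch
  refine ⟨⋃ n, (T n : Set ι), countable_iUnion fun n => (T n).countable_toSet, ?_⟩
  intro x hx
  obtain ⟨K, hK, hxK⟩ := h2 x hx
  obtain ⟨t, ht⟩ := (h1 K hK).1.elim_finite_subcover U hU ((h1 K hK).2.trans hL)
  obtain ⟨n, hn1, hn2⟩ := h4 K hK (⋃ i ∈ t, U i) (isOpen_biUnion fun i _ => hU i) ht
  have h5 := hT n ⟨t, hn2⟩ (hn1 hxK)
  simp only [mem_iUnion] at h5 ⊢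
  obtain ⟨i, hi, hxi⟩ := h5
  exact ⟨i, ⟨n, hi⟩, hxi⟩

end basic

section tight

variable {X : Type u} [TopologicalSpace X] [CompactSpace X] [T2Space X]

/-- the function `max |g y - g x|` over a list -/
noncomputable def hl (x : X) : List (X → ℝ) → X → ℝ
  | [] => fun _ => 0
  | g :: l => fun y => max |g y - g x| (hl x l y)

theorem hl_self (x : X) (l : List (X → ℝ)) : hl x l x = 0 := by
  induction l with
  | nil => rfl
  | cons g l ih => simp [hl, ih]

theorem hl_continuous (x : X) (l : List (X → ℝ)) (h : ∀ g ∈ l, Continuous g) :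
    Continuous (hl x l) := by
  induction l with
  | nil => exact continuous_const
  | cons g l ih =>
    have h1 : Continuous g := h g (by simp)
    have h2 : Continuous (hl x l) := ih fun g' hg' => h g' (by simp [hg'])
    exact ((h1.sub continuous_const).abs).max h2

theorem le_hl (x y : X) (l : List (X → ℝ)) (g : X → ℝ) (hg : g ∈ l) : |g y - g x| ≤ hl x l y := by
  induction l with
  | nil => simp at hg
  | cons g' l ih =>
    rcases List.mem_cons.1 hg with rfl | h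
    · exact le_max_left _ _
    · exact (ih h).trans (le_max_right _ _)

theorem isLS_hl (x : X) {L : Set (X → ℝ)} (hL : IsLS L) (m : ℕ) :
    IsLS {h : X → ℝ | ∃ l : List (X → ℝ), l.length = m ∧ (∀ g ∈ l, g ∈ L) ∧ h = hl x l} := by
  induction m with
  | zero =>
    have : {h : X → ℝ | ∃ l : List (X → ℝ), l.length = 0 ∧ (∀ g ∈ l, g ∈ L) ∧ h = hl x l}
        = {fun _ => 0} := by
      ext h
      constructor
      · rintro ⟨l, hl0, _, rfl⟩
        rw [List.length_eq_zero_iff] at hl0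
        subst hl0; rfl
      · rintro rfl
        exact ⟨[], rfl, by simp, rfl⟩
    rw [this]
    exact IsLS.singleton _
  | succ m ih =>
    have hcont : Continuous (fun p : (X → ℝ) × (X → ℝ) => fun y => max |p.1 y - p.1 x| (p.2 y)) := by
      refine continuous_pi fun y => ?_
      refine (((continuous_apply y).comp continuous_fst).sub
        ((continuous_apply x).comp continuous_fst)).abs.max ((continuous_apply y).comp continuous_snd)
    have := (hL.prod ih).image hcont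
    convert this using 1
    ext h
    constructor
    · rintro ⟨l, hlm, hlL, rfl⟩
      cases l with
      | nil => simp at hlm
      | cons g l =>
        refine ⟨(g, hl x l), ⟨hlL g (by simp), ⟨l, by simpa using hlm,
          fun g' hg' => hlL g' (by simp [hg']), rfl⟩⟩, rfl⟩
    · rintro ⟨⟨g, h'⟩, ⟨hg, ⟨l, hlm, hlL, hh⟩⟩, rfl⟩
      refine ⟨g :: l, by simp [hlm], ?_, ?_⟩
      · intro g' hg'
        rcases List.mem_cons.1 hg' with rfl | h1
        · exact hg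
        · exact hlL g' h1
      · simp only at hh
        subst hh
        rfl

/-- Tightness at a point split off by a Lindelöf Σ family. -/
theorem tight_of_split (x : X) (L : Set (X → ℝ)) (hL : IsLS L) (hLc : ∀ g ∈ L, Continuous g)
    (hsplit : ∀ y, y ≠ x → ∃ g ∈ L, g x ≠ g y) (B : Set X) (hx : x ∈ closure B) :
    ∃ B0 ⊆ B, B0.Countable ∧ x ∈ closure B0 := by
  classical
  let Linf : Set (X → ℝ) := ⋃ m : ℕ, {h : X → ℝ | ∃ l : List (X → ℝ), l.length = m ∧
    (∀ g ∈ l, g ∈ L) ∧ h = hl x l}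
  have hLinf : IsLS Linf := IsLS.iUnion fun m => isLS_hl x hL m
  have hcov : ∀ n : ℕ, ∃ T : Set B, T.Countable ∧
      Linf ⊆ ⋃ b ∈ T, {h : X → ℝ | h (b : X) < 1 / ((n : ℝ) + 1)} := by
    intro n
    refine hLinf.lindelof (fun b : B => {h : X → ℝ | h (b : X) < 1 / ((n : ℝ) + 1)}) ?_ ?_
    · intro b
      exact isOpen_lt (continuous_apply _) continuous_const
    · intro h hh
      obtain ⟨m, l, _, hlL, rfl⟩ := mem_iUnion.1 hh
      have hc : Continuous (hl x l) := hl_continuous x l fun g hg => hLc g (hlL g hg)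
      have hpos : (0 : ℝ) < 1 / ((n : ℝ) + 1) := by positivity
      have hopen : IsOpen {y | hl x l y < 1 / ((n : ℝ) + 1)} := isOpen_lt hc continuous_const
      have hxm : x ∈ {y | hl x l y < 1 / ((n : ℝ) + 1)} := by
        simp only [mem_setOf_eq, hl_self]; exact hpos
      obtain ⟨b, hb1, hb2⟩ := mem_closure_iff.1 hx _ hopen hxm
      exact mem_iUnion.2 ⟨⟨b, hb2⟩, hb1⟩
  choose T hTc hT using hcov
  refine ⟨⋃ n, Subtype.val '' (T n), ?_, countable_iUnion fun n => (hTc n).image _, ?_⟩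
  · refine iUnion_subset fun n => ?_
    rintro _ ⟨b, _, rfl⟩
    exact b.2
  · by_contra hcon
    have hK : IsCompact (closure (⋃ n, Subtype.val '' (T n) : Set X)) := isClosed_closure.isCompact
    obtain ⟨t, ht⟩ := hK.elim_finite_subcover
      (fun p : L × ℕ => {y : X | 1 / ((p.2 : ℝ) + 1) < |p.1.1 y - p.1.1 x|})
      (fun p => isOpen_lt continuous_const (((hLc _ p.1.2).sub continuous_const).abs))
      (by
        intro y hy
        have hyx : y ≠ x := fun e => hcon (e ▸ hy)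
        obtain ⟨g, hg, hne⟩ := hsplit y hyx
        have hpos : 0 < |g y - g x| := abs_pos.2 (sub_ne_zero.2 (Ne.symm hne))
        obtain ⟨n, hn⟩ := exists_nat_one_div_lt hpos
        exact mem_iUnion.2 ⟨(⟨g, hg⟩, n), hn⟩)
    obtain ⟨M, hM⟩ : ∃ M : ℕ, ∀ p ∈ t, p.2 ≤ M :=
      ⟨t.sup (fun p => p.2), fun p hp => Finset.le_sup (f := fun p : L × ℕ => p.2) hp⟩
    let l : List (X → ℝ) := t.toList.map (fun p => p.1.1)
    have hlL : ∀ g ∈ l, g ∈ L := by
      intro g hg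
      obtain ⟨p, _, rfl⟩ := List.mem_map.1 hg
      exact p.1.2
    have hmem : hl x l ∈ Linf := mem_iUnion.2 ⟨l.length, l, rfl, hlL, rfl⟩
    obtain ⟨b, hb1, hb2⟩ := by
      have := hT M hmem
      simp only [mem_iUnion] at this
      exact this
    have hbK : (b : X) ∈ closure (⋃ n, Subtype.val '' (T n) : Set X) :=
      subset_closure (mem_iUnion.2 ⟨M, ⟨b, hb1, rfl⟩⟩)
    have hb3 := ht hbK
    simp only [mem_iUnion] at hb3
    obtain ⟨p, hp, hp2⟩ := hb3
    have h1 : |p.1.1 b - p.1.1 x| ≤ hl x l b := by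
      refine le_hl x b l p.1.1 ?_
      exact List.mem_map.2 ⟨p, by simpa using hp, rfl⟩
    have h2 : (1 : ℝ) / ((M : ℝ) + 1) ≤ 1 / ((p.2 : ℝ) + 1) := by
      have h3 : (p.2 : ℝ) ≤ M := by exact_mod_cast hM p hp
      apply one_div_le_one_div_of_le
      · positivity
      · linarith
    simp only [mem_setOf_eq] at hb2 hp2
    linarith

end tight

end Pool.Agent.Lib_helper94.Gulko
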