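import Pool.Agent.Lib_helper94.GulkoA

set_option autoImplicit false

open Set Filter Topology

universe u v w

namespace Pool.Agent.Lib_helper94.Gulko

section small

variable {X : Type u} [TopologicalSpace X]

/-- A countable subfamily separating `x` from the other points of the closure of a countable set. -/
theorem exists_countable_separating (x : X) (L : Set (X → ℝ)) (hL : IsLS L)
    (hLc : ∀ g ∈ L, Continuous g) (hsplit : ∀ y, y ≠ x → ∃ g ∈ L, g x ≠ g y)
    (B : Set X) (hB : B.Countable) (hx : x ∈ closure B) :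
    ∃ g : ℕ → X → ℝ, (∀ n, Continuous (g n)) ∧
      ∀ y ∈ closure B, y ≠ x → ∃ n, g n x ≠ g n y := by
  classical
  obtain ⟨C, N, h1, h2, h3, h4⟩ := hL
  have : Countable B := hB.to_subtype
  let I := ℕ × List (B × ℚ × ℚ)
  let P : I → Set (X → ℝ) := fun i => {g | g ∈ N i.1 ∧ ∀ t ∈ i.2, (t.2.1 : ℝ) < g t.1 ∧ g t.1 < t.2.2}
  let G : I → X → ℝ := fun i => if h : (P i).Nonempty then h.some else fun _ => 0
  have hGc : ∀ i, Continuous (G i) := by
    intro i
    by_cases h : (P i).Nonempty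
    · have : G i = h.some := by simp only [G, dif_pos h]
      rw [this]
      exact hLc _ (h3 _ h.some_mem.1)
    · have : G i = fun _ => 0 := by simp only [G, dif_neg h]
      rw [this]
      exact continuous_const
  have hGP : ∀ i, (P i).Nonempty → G i ∈ P i := by
    intro i h
    have : G i = h.some := by simp only [G, dif_pos h]
    rw [this]; exact h.some_mem
  have : Nonempty I := ⟨(0, [])⟩
  obtain ⟨e, he⟩ := exists_surjective_nat I
  refine ⟨fun n => G (e n), fun n => hGc _, ?_⟩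
  intro y hy hyx
  by_contra hcon
  push Not at hcon
  have hG : ∀ i, G i x = G i y := by
    intro i
    obtain ⟨n, hn⟩ := he i
    have := hcon n
    rwa [hn] at this
  obtain ⟨g0, hg0, hne⟩ := hsplit y hyx
  obtain ⟨K, hK, hgK⟩ := h2 g0 hg0
  let ε := |g0 x - g0 y| / 3
  have hε : 0 < ε := by
    have : 0 < |g0 x - g0 y| := abs_pos.2 (sub_ne_zero.2 hne)
    positivity
  let U : Set (X → ℝ) := {g | |g x - g0 x| < ε ∧ |g y - g0 y| < ε}
  have hU : IsOpen U := by
    refine IsOpen.inter ?_ ?_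
    · exact isOpen_lt ((continuous_apply x).sub continuous_const).abs continuous_const
    · exact isOpen_lt ((continuous_apply y).sub continuous_const).abs continuous_const
  have hUne : ∀ g ∈ U, g x ≠ g y := by
    rintro g ⟨ha, hb⟩ heq
    have h5 : |g0 x - g0 y| ≤ |g x - g0 x| + |g y - g0 y| := by
      have : g0 x - g0 y = -(g x - g0 x) + (g y - g0 y) := by rw [heq]; ring
      rw [this]
      refine (abs_add_le _ _).trans ?_
      rw [abs_neg]
    have h6 : |g0 x - g0 y| = 3 * ε := by simp only [ε]; ring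
    linarith
  -- cover `K \ U`
  have hKU : IsCompact (K \ U) := (h1 K hK).1.diff hU
  have hsep : ∀ c ∈ K \ U, ∃ t : B × (ℚ × ℚ) × (ℚ × ℚ),
      ((t.2.1.1 : ℝ) < g0 t.1 ∧ g0 t.1 < t.2.1.2) ∧ ((t.2.2.1 : ℝ) < c t.1 ∧ c t.1 < t.2.2.2) ∧
      ∀ r : ℝ, ¬ (((t.2.1.1 : ℝ) < r ∧ r < t.2.1.2) ∧ ((t.2.2.1 : ℝ) < r ∧ r < t.2.2.2)) := by
    rintro c ⟨hcK, hcU⟩
    have hcL : c ∈ L := (h1 K hK).2 hcK
    have hcc : Continuous c := hLc c hcL
    have hgc : Continuous g0 := hLc g0 hg0
    -- some point of the closure where they differ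
    have hp : ∃ p ∈ closure B, c p ≠ g0 p := by
      by_contra hno
      push Not at hno
      apply hcU
      refine ⟨?_, ?_⟩
      · rw [hno x hx]; simpa using hε
      · rw [hno y hy]; simpa using hε
    obtain ⟨p, hp, hpne⟩ := hp
    have hopen : IsOpen {z | c z ≠ g0 z} := isOpen_ne_fun hcc hgc
    obtain ⟨b, hb1, hb2⟩ := mem_closure_iff.1 hp _ hopen hpne
    have hb1 : c b ≠ g0 b := hb1
    rcases lt_or_gt_of_ne hb1 with hlt | hlt
    · obtain ⟨q, hq1, hq2⟩ := exists_rat_btwn hlt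
      obtain ⟨q', hq'⟩ := exists_rat_gt (g0 b)
      obtain ⟨q'', hq''⟩ := exists_rat_lt (c b)
      refine ⟨(⟨b, hb2⟩, (q, q'), (q'', q)), ⟨hq2, hq'⟩, ⟨hq'', hq1⟩, ?_⟩
      rintro r ⟨⟨ha, _⟩, ⟨_, hb⟩⟩
      simp only at ha hb
      linarith
    · obtain ⟨q, hq1, hq2⟩ := exists_rat_btwn hlt
      obtain ⟨q', hq'⟩ := exists_rat_lt (g0 b)
      obtain ⟨q'', hq''⟩ := exists_rat_gt (c b)
      refine ⟨(⟨b, hb2⟩, (q', q), (q, q'')), ⟨hq', hq1⟩, ⟨hq2, hq''⟩, ?_⟩
      rintro r ⟨⟨_, ha⟩, ⟨hb, _⟩⟩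
      simp only at ha hb
      linarith
  choose t ht1 ht2 ht3 using fun c : (K \ U : Set (X → ℝ)) => hsep c.1 c.2
  obtain ⟨F, hF⟩ := hKU.elim_finite_subcover
    (fun c : (K \ U : Set (X → ℝ)) => {g : X → ℝ | ((t c).2.2.1 : ℝ) < g (t c).1 ∧ g (t c).1 < (t c).2.2.2})
    (fun c => (isOpen_lt continuous_const (continuous_apply _)).inter
      (isOpen_lt (continuous_apply _) continuous_const))
    (fun c hc => mem_iUnion.2 ⟨⟨c, hc⟩, ht2 ⟨c, hc⟩⟩)
  let O : Set (X → ℝ) := U ∪ ⋃ c ∈ F, {g : X → ℝ | ((t c).2.2.1 : ℝ) < g (t c).1 ∧ g (t c).1 < (t c).2.2.2}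
  have hO : IsOpen O := hU.union (isOpen_biUnion fun c _ =>
    (isOpen_lt continuous_const (continuous_apply _)).inter
      (isOpen_lt (continuous_apply _) continuous_const))
  have hKO : K ⊆ O := by
    intro c hc
    by_cases hcU : c ∈ U
    · exact Or.inl hcU
    · exact Or.inr (hF ⟨hc, hcU⟩)
  obtain ⟨n, hn1, hn2⟩ := h4 K hK O hO hKO
  let i : I := (n, F.toList.map (fun c => ((t c).1, (t c).2.1.1, (t c).2.1.2)))
  have hPi : g0 ∈ P i := by
    refine ⟨hn1 hgK, ?_⟩
    intro s hs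
    obtain ⟨c, _, rfl⟩ := List.mem_map.1 hs
    exact ht1 c
  have hGi := hGP i ⟨g0, hPi⟩
  have hGO : G i ∈ O := hn2 hGi.1
  rcases hGO with h | h
  · exact hUne _ h (hG i)
  · simp only [mem_iUnion] at h
    obtain ⟨c, hcF, hc⟩ := h
    have h7 := hGi.2 ((t c).1, (t c).2.1.1, (t c).2.1.2)
      (List.mem_map.2 ⟨c, by simpa using hcF, rfl⟩)
    exact ht3 c _ ⟨h7, hc⟩

/-- sequences converging to points of the closure of a countable set -/
theorem exists_seq_tendsto [CompactSpace X] [T2Space X] (x : X) (B : Set X)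
    (g : ℕ → X → ℝ) (hg : ∀ n, Continuous (g n))
    (hsep : ∀ y ∈ closure B, y ≠ x → ∃ n, g n x ≠ g n y) (hx : x ∈ closure B) :
    ∃ b : ℕ → X, (∀ n, b n ∈ B) ∧ Tendsto b atTop (𝓝 x) := by
  have hex : ∀ n : ℕ, ∃ b ∈ B, ∀ i ≤ n, |g i b - g i x| < 1 / ((n : ℝ) + 1) := by
    intro n
    have hopen : IsOpen (⋂ i ∈ Finset.range (n + 1), {y | |g i y - g i x| < 1 / ((n : ℝ) + 1)}) :=
      isOpen_biInter_finset fun i _ => isOpen_lt ((hg i).sub continuous_const).abs continuous_const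
    have hxm : x ∈ (⋂ i ∈ Finset.range (n + 1), {y | |g i y - g i x| < 1 / ((n : ℝ) + 1)}) := by
      simp only [mem_iInter]
      intro i _
      have : (0 : ℝ) < 1 / ((n : ℝ) + 1) := by positivity
      simpa using this
    obtain ⟨b, hb1, hb2⟩ := mem_closure_iff.1 hx _ hopen hxm
    refine ⟨b, hb2, fun i hi => ?_⟩
    simp only [mem_iInter] at hb1
    exact hb1 i (Finset.mem_range.2 (Nat.lt_succ_of_le hi))
  choose b hbB hb using hex
  refine ⟨b, hbB, ?_⟩
  refine le_nhds_of_unique_clusterPt fun y hy => ?_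
  by_contra hyx
  have hycl : y ∈ closure B := by
    rw [mem_closure_iff_clusterPt]
    refine ClusterPt.mono hy ?_
    rw [le_principal_iff]
    exact mem_map.2 (Eventually.of_forall fun n => hbB n)
  obtain ⟨i, hi⟩ := hsep y hycl hyx
  have h1 : Tendsto (fun n => g i (b n)) atTop (𝓝 (g i x)) := by
    rw [Metric.tendsto_atTop]
    intro ε hε
    obtain ⟨m, hm⟩ := exists_nat_one_div_lt hε
    refine ⟨max i m, fun n hn => ?_⟩
    rw [Real.dist_eq]
    have h2 := hb n i ((le_max_left _ _).trans hn)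
    have h3 : (1 : ℝ) / ((n : ℝ) + 1) ≤ 1 / ((m : ℝ) + 1) := by
      have h4 : (m : ℝ) ≤ n := by exact_mod_cast (le_max_right _ _).trans hn
      apply one_div_le_one_div_of_le
      · positivity
      · linarith
    linarith
  -- a cluster point has the same values
  have h2 : MapClusterPt (g i y) atTop (fun n => g i (b n)) := by
    have : MapClusterPt y atTop b := hy
    exact this.continuousAt_comp (hg i).continuousAt
  have h3 : g i y = g i x := by
    have h5 : ClusterPt (g i y) (𝓝 (g i x)) := ClusterPt.mono h2 h1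
    exact (eq_of_nhds_neBot (by simpa [ClusterPt, inf_comm] using h5))
  exact hi h3.symm

/-- the closure of a countable set injects into `ℕ → ℕ` -/
theorem exists_code [CompactSpace X] [T2Space X]
    (hS : ∀ A : Set X, ∃ L : Set (X → ℝ), IsLS L ∧ (∀ g ∈ L, Continuous g) ∧
      ∀ x ∈ A, ∀ y, y ∉ A → ∃ g ∈ L, g x ≠ g y)
    (B : Set X) (hB : B.Countable) : ∃ code : X → ℕ → ℕ, InjOn code (closure B) := by
  classical
  obtain ⟨e, he⟩ := Set.countable_iff_exists_injOn.1 hB
  have hex : ∀ x ∈ closure B, ∃ b : ℕ → X, (∀ n, b n ∈ B) ∧ Tendsto b atTop (𝓝 x) := by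
    intro x hx
    obtain ⟨L, hL, hLc, hsplit⟩ := hS {x}
    obtain ⟨g, hg, hsep⟩ := exists_countable_separating x L hL hLc
      (fun y hy => hsplit x rfl y (by simpa using hy)) B hB hx
    exact exists_seq_tendsto x B g hg hsep hx
  choose! b hbB hb using hex
  refine ⟨fun x n => e (b x n), ?_⟩
  intro x hx y hy hxy
  have h1 : b x = b y := by
    funext n
    exact he (hbB x hx n) (hbB y hy n) (congrFun hxy n)
  have h2 := hb x hx
  rw [h1] at h2
  exact tendsto_nhds_unique h2 (hb y hy)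

end small

end Pool.Agent.Lib_helper94.Gulko
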