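import Pool.Agent.Lib_helper94.GulkoB

set_option autoImplicit false

open Set Filter Topology

universe u v w

namespace Pool.Agent.Lib_helper94.Gulko

section gc

variable {X : Type u}

/-- the open set `V` decides the question `(s, a, b, W)` for `(L, N)` -/
def Dec (L : Set (X → ℝ)) (N : ℕ → Set (X → ℝ)) (q : Finset ℕ × ℚ × ℚ) (W : Set X) (V : Set X) :
    Prop :=
  (∀ g ∈ L, (∀ k ∈ q.1, g ∈ N k) → (∀ y ∈ W, g y < q.2.1) → ∀ y ∈ V, g y ≤ q.2.2) ∨
    (∃ g ∈ L, (∀ k ∈ q.1, g ∈ N k) ∧ (∀ y ∈ W, g y < q.2.1) ∧ ∀ y ∈ V, (q.2.2 : ℝ) < g y)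

theorem Dec.mono {L : Set (X → ℝ)} {N : ℕ → Set (X → ℝ)} {q : Finset ℕ × ℚ × ℚ} {W V V' : Set X}
    (h : Dec L N q W V) (hV : V' ⊆ V) : Dec L N q W V' := by
  rcases h with h | ⟨g, hg, h1, h2, h3⟩
  · exact Or.inl fun g hg h1 h2 y hy => h g hg h1 h2 y (hV hy)
  · exact Or.inr ⟨g, hg, h1, h2, fun y hy => h3 y (hV hy)⟩

variable [TopologicalSpace X]

theorem Dec.dense {L : Set (X → ℝ)} (hLc : ∀ g ∈ L, Continuous g) (N : ℕ → Set (X → ℝ))
    (q : Finset ℕ × ℚ × ℚ) (W : Set X) (V : Set X) (hV : IsOpen V) (hVne : V.Nonempty) :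
    ∃ V' ⊆ V, IsOpen V' ∧ V'.Nonempty ∧ Dec L N q W V' := by
  by_cases h : ∀ g ∈ L, (∀ k ∈ q.1, g ∈ N k) → (∀ y ∈ W, g y < q.2.1) → ∀ y ∈ V, g y ≤ q.2.2
  · exact ⟨V, subset_rfl, hV, hVne, Or.inl h⟩
  · push Not at h
    obtain ⟨g, hg, h1, h2, y, hy, h3⟩ := h
    refine ⟨V ∩ {z | (q.2.2 : ℝ) < g z}, inter_subset_left,
      hV.inter (isOpen_lt continuous_const (hLc g hg)), ⟨y, hy, h3⟩, Or.inr ⟨g, hg, h1, h2, ?_⟩⟩
    exact fun z hz => hz.2

omit [TopologicalSpace X] in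
/-- a sequence `g n ∈ ⋂ k ≤ n, K ⊆ N k, N k` has a cluster point in `K` -/
theorem exists_clusterPt_of_network {L : Set (X → ℝ)} {C : Set (Set (X → ℝ))}
    {N : ℕ → Set (X → ℝ)} (hL : LSData L C N) {K : Set (X → ℝ)} (hK : K ∈ C)
    (g : ℕ → X → ℝ) (hg : ∀ n, ∀ k ≤ n, K ⊆ N k → g n ∈ N k) :
    ∃ g' ∈ K, MapClusterPt g' atTop g := by
  obtain ⟨h1, h2, h3, h4⟩ := hL
  by_contra hcon
  push Not at hcon
  have hex : ∀ c : K, ∃ O, IsOpen O ∧ c.1 ∈ O ∧ ∀ᶠ n in atTop, g n ∉ O := by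
    rintro ⟨c, hc⟩
    have := hcon c hc
    rw [mapClusterPt_iff_frequently] at this
    push Not at this
    obtain ⟨s, hs, hs2⟩ := this
    obtain ⟨O, hOs, hO, hcO⟩ := mem_nhds_iff.1 hs
    refine ⟨O, hO, hcO, ?_⟩
    exact hs2.mono fun n hn hnO => hn (hOs hnO)
  choose O hO hcO hev using hex
  obtain ⟨t, ht⟩ := (h1 K hK).1.elim_finite_subcover O hO
    (fun c hc => mem_iUnion.2 ⟨⟨c, hc⟩, hcO ⟨c, hc⟩⟩)
  obtain ⟨m, hm1, hm2⟩ := h4 K hK (⋃ c ∈ t, O c) (isOpen_biUnion fun c _ => hO c) ht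
  have hall : ∀ᶠ n in atTop, ∀ c ∈ t, g n ∉ O c := by
    rw [Filter.eventually_all_finset]
    exact fun c _ => hev c
  obtain ⟨n, hn1, hn2⟩ := (hall.and (eventually_ge_atTop m)).exists
  have h5 := hm2 (hg n m hn2 hm1)
  simp only [mem_iUnion] at h5
  obtain ⟨c, hc, hgc⟩ := h5
  exact hn1 c hc hgc

theorem generic_constancy_aux [CompactSpace X] {L : Set (X → ℝ)} {C : Set (Set (X → ℝ))}
    {N : ℕ → Set (X → ℝ)} (hL : LSData L C N) (hLc : ∀ g ∈ L, Continuous g)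
    (U : ℕ → Set X) (hU : Antitone U) (z : ℕ → X) (hz : ∀ n, z n ∈ U n)
    (hdec : ∀ (q : Finset ℕ × ℚ × ℚ) (w : Finset ℕ), ∃ k, Dec L N q (z '' w) (U k))
    (x0 : X) (hx0 : MapClusterPt x0 atTop z) (g : X → ℝ) (hg : g ∈ L) (x : X)
    (hx : ∀ n, x ∈ U n) : g x ≤ g x0 := by
  classical
  by_contra hlt
  push Not at hlt
  obtain ⟨b, hb1, hb2⟩ := exists_rat_btwn hlt
  obtain ⟨a, ha1, ha2⟩ := exists_rat_btwn hb1
  obtain ⟨K, hK, hgK⟩ := hL.2.1 g hg
  let s : ℕ → Finset ℕ := fun n => (Finset.range (n + 1)).filter (fun k => K ⊆ N k)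
  have hs : ∀ n k, k ∈ s n ↔ k ≤ n ∧ K ⊆ N k := by
    intro n k
    simp only [s, Finset.mem_filter, Finset.mem_range, Nat.lt_succ_iff]
  have hfreq : ∀ m, ∃ m' > m, g (z m') < a := by
    intro m
    have hfr : ∃ᶠ n in atTop, z n ∈ {y | g y < a} := by
      rw [mapClusterPt_iff_frequently] at hx0
      exact hx0 _ ((isOpen_lt (hLc g hg) continuous_const).mem_nhds ha1)
    obtain ⟨n, hn1, hn2⟩ := (hfr.and_eventually (eventually_gt_atTop m)).exists
    exact ⟨n, hn2, hn1⟩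
  -- one step
  have hstep : ∀ (n : ℕ) (w : Finset ℕ), ∃ (k : ℕ) (f : X → ℝ), (∀ j ∈ w, g (z j) < a) →
      (f ∈ L ∧ (∀ k ∈ s n, f ∈ N k) ∧ (∀ j ∈ w, f (z j) < a) ∧ ∀ y ∈ U k, (b : ℝ) < f y) := by
    intro n w
    obtain ⟨k, hk⟩ := hdec (s n, a, b) w
    by_cases hw : ∀ j ∈ w, g (z j) < a
    · rcases hk with hk | ⟨f, hf1, hf2, hf3, hf4⟩
      · exfalso
        have := hk g hg (fun k hk => ((hs n k).1 hk).2 hgK)
          (by rintro _ ⟨j, hj, rfl⟩; exact hw j hj) x (hx k)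
        simp only at this
        linarith
      · exact ⟨k, f, fun _ => ⟨hf1, hf2, fun j hj => hf3 _ ⟨j, hj, rfl⟩, hf4⟩⟩
    · exact ⟨k, g, fun h => absurd h hw⟩
  choose kk ff hff using hstep
  choose nx hnx1 hnx2 using hfreq
  -- the recursion: state is `(n, w, m)` with `m` the last index
  let st : ℕ → Finset ℕ × ℕ := fun n => Nat.rec ({nx 0}, nx 0)
    (fun n p => let m' := nx (max p.2 (kk n p.1)); (insert m' p.1, m')) n
  let m : ℕ → ℕ := fun n => (st n).2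
  let w : ℕ → Finset ℕ := fun n => (st n).1
  have hm_succ : ∀ n, m (n + 1) = nx (max (m n) (kk n (w n))) := fun n => rfl
  have hw_succ : ∀ n, w (n + 1) = insert (m (n + 1)) (w n) := fun n => rfl
  have hm0 : m 0 = nx 0 := rfl
  have hw0 : w 0 = {m 0} := rfl
  have hmlt : ∀ n, m n < m (n + 1) := by
    intro n
    rw [hm_succ]
    exact lt_of_le_of_lt (le_max_left _ _) (hnx1 _)
  have hmono : StrictMono m := strictMono_nat_of_lt_succ hmlt
  have hkm : ∀ n, kk n (w n) < m (n + 1) := by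
    intro n
    rw [hm_succ]
    exact lt_of_le_of_lt (le_max_right _ _) (hnx1 _)
  have hga : ∀ n, g (z (m n)) < a := by
    intro n
    cases n with
    | zero => rw [hm0]; exact hnx2 _
    | succ n => rw [hm_succ]; exact hnx2 _
  have hwm : ∀ n j, j ∈ w n ↔ ∃ i ≤ n, j = m i := by
    intro n
    induction n with
    | zero =>
      intro j
      rw [hw0, Finset.mem_singleton]
      constructor
      · intro h; exact ⟨0, le_rfl, h⟩
      · rintro ⟨i, hi, rfl⟩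
        rw [Nat.le_zero.1 hi]
    | succ n ih =>
      intro j
      rw [hw_succ, Finset.mem_insert, ih]
      constructor
      · rintro (h | ⟨i, hi, h⟩)
        · exact ⟨n + 1, le_rfl, h⟩
        · exact ⟨i, hi.trans (Nat.le_succ n), h⟩
      · rintro ⟨i, hi, h⟩
        rcases Nat.lt_or_eq_of_le hi with h' | h'
        · exact Or.inr ⟨i, Nat.lt_succ_iff.1 h', h⟩
        · exact Or.inl (by rw [h, h'])
  have hgw : ∀ n, ∀ j ∈ w n, g (z j) < a := by
    intro n j hj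
    obtain ⟨i, _, rfl⟩ := (hwm n j).1 hj
    exact hga i
  let f : ℕ → X → ℝ := fun n => ff n (w n)
  have hf1 : ∀ n, f n ∈ L := fun n => (hff n (w n) (hgw n)).1
  have hf2 : ∀ n, ∀ k ≤ n, K ⊆ N k → f n ∈ N k := fun n k hk hKk =>
    (hff n (w n) (hgw n)).2.1 k ((hs n k).2 ⟨hk, hKk⟩)
  have hf3 : ∀ n, ∀ j ≤ n, f n (z (m j)) < a := fun n j hj =>
    (hff n (w n) (hgw n)).2.2.1 _ ((hwm n _).2 ⟨j, hj, rfl⟩)
  have hf4 : ∀ n, ∀ y ∈ U (kk n (w n)), (b : ℝ) < f n y := fun n => (hff n (w n) (hgw n)).2.2.2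
  obtain ⟨g', hg'K, hg'⟩ := exists_clusterPt_of_network hL hK f hf2
  have hg'c : Continuous g' := hLc _ ((hL.1 K hK).2 hg'K)
  obtain ⟨zz, hzz⟩ := exists_clusterPt_of_compactSpace (map (fun j => z (m j)) atTop)
  have hzz : MapClusterPt zz atTop (fun j => z (m j)) := hzz
  -- `g' zz ≤ a`
  have h1 : ∀ j, g' (z (m j)) ≤ a := by
    intro j
    by_contra hc
    push Not at hc
    rw [mapClusterPt_iff_frequently] at hg'
    have hfr := hg' {h : X → ℝ | (a : ℝ) < h (z (m j))}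
      ((isOpen_lt continuous_const (continuous_apply _)).mem_nhds hc)
    obtain ⟨n, hn1, hn2⟩ := (hfr.and_eventually (eventually_ge_atTop j)).exists
    have := hf3 n j hn2
    have hn1 : (a : ℝ) < f n (z (m j)) := hn1
    linarith
  have h2 : g' zz ≤ a := by
    by_contra hc
    push Not at hc
    rw [mapClusterPt_iff_frequently] at hzz
    obtain ⟨j, hj⟩ := (hzz {y | (a : ℝ) < g' y} ((isOpen_lt continuous_const hg'c).mem_nhds hc)).exists
    have hj : (a : ℝ) < g' (z (m j)) := hj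
    linarith [h1 j]
  have h3 : ∀ n, (b : ℝ) ≤ f n zz := by
    intro n
    by_contra hc
    push Not at hc
    rw [mapClusterPt_iff_frequently] at hzz
    have hfr := hzz {y | f n y < b} ((isOpen_lt (hLc _ (hf1 n)) continuous_const).mem_nhds hc)
    obtain ⟨j, hj1, hj2⟩ := (hfr.and_eventually (eventually_ge_atTop (n + 1))).exists
    have hj1 : f n (z (m j)) < b := hj1
    have h5 : kk n (w n) ≤ m j := (hkm n).le.trans (hmono.monotone hj2)
    have := hf4 n (z (m j)) (hU h5 (hz _))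
    linarith
  have h4 : (b : ℝ) ≤ g' zz := by
    by_contra hc
    push Not at hc
    rw [mapClusterPt_iff_frequently] at hg'
    obtain ⟨n, hn⟩ := (hg' {h : X → ℝ | h zz < b}
      ((isOpen_lt (continuous_apply _) continuous_const).mem_nhds hc)).exists
    have hn : f n zz < b := hn
    linarith [h3 n]
  linarith

/-- **Generic constancy.** -/
theorem generic_constancy [CompactSpace X] {L : Set (X → ℝ)} {C : Set (Set (X → ℝ))}
    {N : ℕ → Set (X → ℝ)} (hL : LSData L C N) (hLc : ∀ g ∈ L, Continuous g)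
    (hLs : ∀ g ∈ L, (fun x => - g x) ∈ L)
    (U : ℕ → Set X) (hU : Antitone U) (z : ℕ → X) (hz : ∀ n, z n ∈ U n)
    (hdec : ∀ (q : Finset ℕ × ℚ × ℚ) (w : Finset ℕ), ∃ k, Dec L N q (z '' w) (U k))
    (x0 : X) (hx0 : MapClusterPt x0 atTop z) (g : X → ℝ) (hg : g ∈ L) (x : X)
    (hx : ∀ n, x ∈ U n) : g x = g x0 := by
  have h1 := generic_constancy_aux hL hLc U hU z hz hdec x0 hx0 g hg x hx
  have h2 := generic_constancy_aux hL hLc U hU z hz hdec x0 hx0 _ (hLs g hg) x hx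
  linarith

end gc

end Pool.Agent.Lib_helper94.Gulko
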