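import Mathlib

set_option autoImplicit false

open Set Filter Topology

universe u v w

namespace Pool.Agent.Lib_helper94.Gulko

section tree

/-- the open set of the last move of a history -/
def top {X : Type u} {β : Type w} (tp : β → Set X) : List β → Set X
  | [] => univ
  | b :: _ => tp b

/-- maximal disjoint families -/
theorem exists_max_family {X : Type u} [TopologicalSpace X] {β : Type w} (tp : β → Set X)
    (P : β → Prop) (hP : ∀ b, P b → IsOpen (tp b) ∧ (tp b).Nonempty) (U : Set X)
    (hU : IsOpen U)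
    (hex : ∀ W ⊆ U, IsOpen W → W.Nonempty → ∃ b, P b ∧ tp b ⊆ W) :
    ∃ F : Set β, (∀ b ∈ F, P b) ∧ F.PairwiseDisjoint tp ∧ U ⊆ closure (⋃ b ∈ F, tp b) := by
  obtain ⟨F, hF⟩ := zorn_subset {F : Set β | (∀ b ∈ F, P b) ∧ F.PairwiseDisjoint tp} (by
    intro c hc hchain
    refine ⟨⋃₀ c, ⟨?_, ?_⟩, fun s hs => subset_sUnion_of_mem hs⟩
    · rintro b ⟨s, hs, hb⟩
      exact (hc hs).1 b hb
    · rintro b ⟨s, hs, hb⟩ b' ⟨s', hs', hb'⟩ hne
      rcases hchain.total hs hs' with h | h
      · exact (hc hs').2 (h hb) hb' hne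
      · exact (hc hs).2 hb (h hb') hne)
  refine ⟨F, hF.prop.1, hF.prop.2, ?_⟩
  intro x hx
  by_contra hcon
  let W : Set X := U ∩ (closure (⋃ b ∈ F, tp b))ᶜ
  have hW : IsOpen W := hU.inter isClosed_closure.isOpen_compl
  obtain ⟨b', hb', hbW⟩ := hex W inter_subset_left hW ⟨x, hx, hcon⟩
  have hdis : ∀ b ∈ F, Disjoint (tp b') (tp b) := by
    intro b hb
    rw [Set.disjoint_left]
    intro y hy hy'
    exact (hbW hy).2 (subset_closure (mem_biUnion hb hy'))
  have hnot : b' ∉ F := by
    intro hmem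
    have := hdis b' hmem
    rw [disjoint_self] at this
    exact (hP b' hb').2.ne_empty this
  have hins : insert b' F ∈ {F : Set β | (∀ b ∈ F, P b) ∧ F.PairwiseDisjoint tp} := by
    refine ⟨?_, ?_⟩
    · intro b hb
      rcases hb with rfl | hb
      · exact hb'
      · exact hF.prop.1 b hb
    · exact hF.prop.2.insert fun b hb _ => hdis b hb
  exact hnot (hF.le_of_ge hins (subset_insert _ _) (mem_insert _ _))

/-- **Tree lemma.** -/
theorem exists_tree {X : Type u} [TopologicalSpace X] [BaireSpace X] {β : Type w} (tp : β → Set X)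
    (R : List β → β → Prop)
    (hext : ∀ (h : List β) (W : Set X), IsOpen (top tp h) → IsOpen W → W.Nonempty → W ⊆ top tp h →
      ∃ b, R h b ∧ IsOpen (tp b) ∧ (tp b).Nonempty ∧ tp b ⊆ W ∧ closure (tp b) ⊆ top tp h) :
    ∃ (G : Set X) (H : ℕ → X → List β), Dense G ∧ (∀ x ∈ G, H 0 x = []) ∧
      (∀ x ∈ G, ∀ n, ∃ b, H (n + 1) x = b :: H n x ∧ R (H n x) b ∧ IsOpen (tp b) ∧ x ∈ tp b ∧
        closure (tp b) ⊆ top tp (H n x)) ∧
      ∀ n, ∀ x ∈ G, ∀ y ∈ G, y ∈ top tp (H n x) → H n y = H n x := by
  classical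
  let P : List β → β → Prop := fun h b => R h b ∧ IsOpen (tp b) ∧ (tp b).Nonempty ∧
    closure (tp b) ⊆ top tp h
  have hF : ∀ h : List β, ∃ F : Set β, IsOpen (top tp h) → (∀ b ∈ F, P h b) ∧
      F.PairwiseDisjoint tp ∧ top tp h ⊆ closure (⋃ b ∈ F, tp b) := by
    intro h
    by_cases ho : IsOpen (top tp h)
    · obtain ⟨F, hF1, hF2, hF3⟩ := exists_max_family tp (P h) (fun b hb => ⟨hb.2.1, hb.2.2.1⟩)
        (top tp h) ho (by
          intro W hW hWo hWne
          obtain ⟨b, hb1, hb2, hb3, hb4, hb5⟩ := hext h W ho hWo hWne hW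
          exact ⟨b, ⟨hb1, hb2, hb3, hb5⟩, hb4⟩)
      exact ⟨F, fun _ => ⟨hF1, hF2, hF3⟩⟩
    · exact ⟨∅, fun h => absurd h ho⟩
  choose F hF using hF
  let Lev : ℕ → Set (List β) := fun n => Nat.rec {[]} (fun _ S => {l | ∃ h ∈ S, ∃ b ∈ F h, l = b :: h}) n
  have hLev0 : Lev 0 = {[]} := rfl
  have hLevS : ∀ n, Lev (n + 1) = {l | ∃ h ∈ Lev n, ∃ b ∈ F h, l = b :: h} := fun n => rfl
  have hopen : ∀ n, ∀ h ∈ Lev n, IsOpen (top tp h) := by
    intro n
    induction n with
    | zero =>
      intro h hh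
      rw [hLev0, mem_singleton_iff] at hh
      subst hh
      exact isOpen_univ
    | succ n ih =>
      intro h hh
      rw [hLevS] at hh
      obtain ⟨h', hh', b, hb, rfl⟩ := hh
      exact ((hF h' (ih h' hh')).1 b hb).2.1
  have huniq : ∀ n, ∀ h ∈ Lev n, ∀ h' ∈ Lev n, ∀ y, y ∈ top tp h → y ∈ top tp h' → h = h' := by
    intro n
    induction n with
    | zero =>
      intro h hh h' hh' y _ _
      rw [hLev0, mem_singleton_iff] at hh hh'
      rw [hh, hh']
    | succ n ih =>
      intro h hh h' hh' y hy hy'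
      rw [hLevS] at hh hh'
      obtain ⟨k, hk, b, hb, rfl⟩ := hh
      obtain ⟨k', hk', b', hb', rfl⟩ := hh'
      have hFk := hF k (hopen n k hk)
      have hFk' := hF k' (hopen n k' hk')
      have e : k = k' := ih k hk k' hk' y ((hFk.1 b hb).2.2.2 (subset_closure hy))
        ((hFk'.1 b' hb').2.2.2 (subset_closure hy'))
      subst e
      have : b = b' := by
        by_contra hne
        have := hFk.2.1 hb hb' hne
        exact Set.disjoint_left.1 this hy hy'
      rw [this]
  let O : ℕ → Set X := fun n => ⋃ h ∈ Lev n, top tp h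
  have hOo : ∀ n, IsOpen (O n) := fun n => isOpen_biUnion fun h hh => hopen n h hh
  have hOd : ∀ n, Dense (O n) := by
    intro n
    induction n with
    | zero =>
      have : O 0 = univ := by
        simp only [O, hLev0]
        simp [top]
      rw [this]
      exact dense_univ
    | succ n ih =>
      have hsub : O n ⊆ closure (O (n + 1)) := by
        intro x hx
        simp only [O, mem_iUnion] at hx
        obtain ⟨h, hh, hx⟩ := hx
        have := (hF h (hopen n h hh)).2.2 hx
        refine closure_mono ?_ this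
        intro y hy
        simp only [mem_iUnion] at hy
        obtain ⟨b, hb, hy⟩ := hy
        exact mem_biUnion (show b :: h ∈ Lev (n + 1) from ⟨h, hh, b, hb, rfl⟩) hy
      intro x
      have := closure_mono hsub (ih x)
      rwa [closure_closure] at this
  let G : Set X := ⋂ n, O n
  have hGd : Dense G := dense_iInter_of_isOpen_nat hOo hOd
  have hH : ∀ n x, ∃ h, x ∈ G → h ∈ Lev n ∧ x ∈ top tp h := by
    intro n x
    by_cases hx : x ∈ G
    · have := mem_iInter.1 hx n
      simp only [O, mem_iUnion] at this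
      obtain ⟨h, hh, hx'⟩ := this
      exact ⟨h, fun _ => ⟨hh, hx'⟩⟩
    · exact ⟨[], fun h => absurd h hx⟩
  choose H hH using hH
  refine ⟨G, H, hGd, ?_, ?_, ?_⟩
  · intro x hx
    have := (hH 0 x hx).1
    rwa [hLev0, mem_singleton_iff] at this
  · intro x hx n
    obtain ⟨h1, h2⟩ := hH (n + 1) x hx
    obtain ⟨h3, h4⟩ := hH n x hx
    rw [hLevS] at h1
    obtain ⟨k, hk, b, hb, hkb⟩ := h1
    have hP := (hF k (hopen n k hk)).1 b hb
    rw [hkb] at h2
    have e : k = H n x := huniq n k hk _ h3 x (hP.2.2.2 (subset_closure h2)) h4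
    subst e
    exact ⟨b, hkb, hP.1, hP.2.1, h2, hP.2.2.2⟩
  · intro n x hx y hy hyx
    exact huniq n _ (hH n y hy).1 _ (hH n x hx).1 y (hH n y hy).2 hyx

/-- Metrizability of the branch space. -/
theorem metrizable_of_tree {X : Type u} [TopologicalSpace X] [CompactSpace X] [T2Space X]
    {β : Type w} (tp : β → Set X) (G : Set X) (H : ℕ → X → List β)
    (hH : ∀ x ∈ G, ∀ n, ∃ b, H (n + 1) x = b :: H n x ∧ IsOpen (tp b) ∧ x ∈ tp b ∧
        closure (tp b) ⊆ top tp (H n x))
    (hH0 : ∀ x ∈ G, H 0 x = [])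
    (huniq : ∀ n, ∀ x ∈ G, ∀ y ∈ G, y ∈ top tp (H n x) → H n y = H n x)
    (hsing : ∀ x ∈ G, ∀ y, (∀ n, y ∈ top tp (H n x)) → y = x) :
    TopologicalSpace.MetrizableSpace G := by
  classical
  let _ : TopologicalSpace (List β) := ⊥
  have _ : DiscreteTopology (List β) := ⟨rfl⟩
  let Φ : G → ℕ → List β := fun x n => H n x
  have hmem : ∀ x ∈ G, ∀ n, x ∈ top tp (H n x) := by
    intro x hx n
    cases n with
    | zero => rw [hH0 x hx]; trivial
    | succ n =>
      obtain ⟨b, hb, _, hxb, _⟩ := hH x hx n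
      rw [hb]; exact hxb
  have hopen : ∀ x ∈ G, ∀ n, IsOpen (top tp (H n x)) := by
    intro x hx n
    cases n with
    | zero => rw [hH0 x hx]; exact isOpen_univ
    | succ n =>
      obtain ⟨b, hb, hbo, hxb, _⟩ := hH x hx n
      rw [hb]; exact hbo
  have hanti : ∀ x ∈ G, ∀ n, closure (top tp (H (n + 1) x)) ⊆ top tp (H n x) := by
    intro x hx n
    obtain ⟨b, hb, hbo, hxb, hcl⟩ := hH x hx n
    rw [hb]; exact hcl
  have hcont : Continuous Φ := by
    refine continuous_pi fun n => ?_
    rw [continuous_discrete_rng]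
    intro l
    rw [isOpen_iff_forall_mem_open]
    rintro x hx
    refine ⟨Subtype.val ⁻¹' top tp (H n x), ?_, (hopen x x.2 n).preimage continuous_subtype_val,
      hmem x x.2 n⟩
    intro y hy
    have h1 := huniq n x x.2 y y.2 hy
    have hx : H n x = l := hx
    show H n y = l
    rw [h1, hx]
  have hbase : ∀ x ∈ G, ∀ O, IsOpen O → x ∈ O → ∃ n, top tp (H n x) ⊆ O := by
    intro x hx O hO hxO
    have hdir : Directed (fun s t => s ⊇ t) (fun n => closure (top tp (H (n + 1) x))) := by
      have hmono : Antitone (fun n => closure (top tp (H (n + 1) x))) := by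
        refine antitone_nat_of_succ_le fun n => ?_
        exact (hanti x hx (n + 1)).trans subset_closure
      exact hmono.directed_ge
    obtain ⟨n, hn⟩ := exists_subset_nhds_of_compactSpace
      (V := fun n => closure (top tp (H (n + 1) x))) hdir (fun n => isClosed_closure) (U := O) (by
        intro y hy
        have : y = x := by
          refine hsing x hx y fun n => ?_
          exact hanti x hx n (mem_iInter.1 hy n)
        rw [this]
        exact hO.mem_nhds hxO)
    exact ⟨n + 1, subset_closure.trans hn⟩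
  have hinj : Function.Injective Φ := by
    intro x y hxy
    apply Subtype.ext
    refine hsing y y.2 x fun n => ?_
    have : H n x = H n y := congrFun hxy n
    rw [← this]
    exact hmem x x.2 n
  have hind : IsInducing Φ := by
    rw [isInducing_iff_nhds]
    intro x
    apply le_antisymm
    · exact (hcont.tendsto x).le_comap
    · intro s hs
      rw [mem_nhds_subtype] at hs
      obtain ⟨t, ht, hts⟩ := hs
      obtain ⟨O, hOt, hO, hxO⟩ := mem_nhds_iff.1 ht
      obtain ⟨n, hn⟩ := hbase x x.2 O hO hxO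
      rw [mem_comap]
      refine ⟨{φ | φ n = H n x}, ?_, ?_⟩
      · exact ((isOpen_discrete {H n (x : X)}).preimage
          (continuous_apply n : Continuous fun φ : ℕ → List β => φ n)).mem_nhds rfl
      · intro y hy
        have hy : H n y = H n x := hy
        apply hts
        apply hOt
        apply hn
        rw [← hy]
        exact hmem y y.2 n
  exact (IsEmbedding.mk hind hinj).metrizableSpace

end tree

end Pool.Agent.Lib_helper94.Gulko
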