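import Mathlib

set_option autoImplicit false

open Set

universe u v

namespace Pool.Agent.Lib_helper94.Gulko

/-- `C_p(X)`: the set of continuous real functions on `X`; it carries the topology of pointwise
convergence, that is, the topology of a subspace of the product `X → ℝ`. -/
def Cp (X : Type u) [TopologicalSpace X] : Type u := {f : X → ℝ // Continuous f}

/-- the topology of pointwise convergence -/
instance (X : Type u) [TopologicalSpace X] : TopologicalSpace (Cp X) :=
  TopologicalSpace.induced (fun f : {f : X → ℝ // Continuous f} => (f : X → ℝ)) inferInstance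

/-- Lindelöf Σ-spaces: there are a cover `C` of `Z` by compact sets and a countable family `N` of
subsets of `Z` which is a network modulo `C`: whenever `K ∈ C` lies in an open set `U`, there is
`M ∈ N` with `K ⊆ M ⊆ U`. -/
def IsLindelofSigma (Z : Type u) [TopologicalSpace Z] : Prop :=
  ∃ C N : Set (Set Z), (∀ K ∈ C, IsCompact K) ∧ ⋃₀ C = univ ∧ N.Countable ∧
    ∀ K ∈ C, ∀ U : Set Z, IsOpen U → K ⊆ U → ∃ M ∈ N, K ⊆ M ∧ M ⊆ U

/-- Gul'ko compact spaces: compact Hausdorff spaces `Y` such that `C_p(Y)` is a Lindelöf
Σ-space. -/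
def IsGulkoCompact (Y : Type u) [TopologicalSpace Y] : Prop :=
  CompactSpace Y ∧ T2Space Y ∧ IsLindelofSigma (Cp Y)

/-- `X` is splittable over the class of Gul'ko compact spaces: for every `A ⊆ X` there are a
Gul'ko compact space `Y` and a continuous map `f : X → Y` with `f ⁻¹' (f '' A) = A`. -/
def SplittableOverGulko (X : Type u) [TopologicalSpace X] : Prop :=
  ∀ A : Set X, ∃ (Y : Type v) (_ : TopologicalSpace Y), IsGulkoCompact Y ∧
    ∃ f : X → Y, Continuous f ∧ f ⁻¹' (f '' A) = A

end Pool.Agent.Lib_helper94.Gulko
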