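import Pool.Agent.Lib_helper94.GulkoC

set_option autoImplicit false

open Set Filter Topology

universe u v w

namespace Pool.Agent.Lib_helper94.Gulko

open Cardinal in
/-- a well-ordered type of order type `ω₁` -/
theorem exists_omega_one : ∃ (ι : Type) (_ : LinearOrder ι) (_ : WellFoundedLT ι),
    (∀ i : ι, (Iio i).Countable) ∧ (∀ s : Set ι, s.Countable → ∃ j, ∀ i ∈ s, i < j) ∧
    ∃ enc : ι → ℕ → ℕ, Function.Injective enc := by
  have hIio : ∀ i : (Cardinal.aleph 1).ord.ToType, (Iio i).Countable := by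
    intro i
    have : #(Iio i) < Cardinal.aleph 1 := by simpa using Cardinal.mk_Iio_lt i
    rw [← Cardinal.le_aleph0_iff_set_countable]
    rw [← Order.lt_succ_iff, Cardinal.succ_aleph0]
    exact this
  refine ⟨(Cardinal.aleph 1).ord.ToType, inferInstance, inferInstance, hIio, ?_, ?_⟩
  · intro s hs
    by_contra hcon
    push Not at hcon
    have : (univ : Set (Cardinal.aleph 1).ord.ToType) ⊆ ⋃ i ∈ s, Iic i := by
      intro j _
      obtain ⟨i, hi, hij⟩ := hcon j
      exact mem_biUnion hi hij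
    have hcount : (univ : Set (Cardinal.aleph 1).ord.ToType).Countable := by
      refine Set.Countable.mono this (hs.biUnion fun i _ => ?_)
      rw [← Iio_insert]
      exact (hIio i).insert i
    rw [← Cardinal.le_aleph0_iff_set_countable, Cardinal.mk_univ, Cardinal.mk_ord_toType] at hcount
    exact absurd hcount (not_le.2 Cardinal.aleph0_lt_aleph_one)
  · have : #((Cardinal.aleph 1).ord.ToType) ≤ #(ℕ → ℕ) := by
      rw [Cardinal.mk_ord_toType]
      have : #(ℕ → ℕ) = Cardinal.continuum := by simp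
      rw [this]
      exact Cardinal.aleph_one_le_continuum
    obtain ⟨f⟩ := Cardinal.le_def _ _ |>.1 this
    exact ⟨f, f.injective⟩

section recursion

variable {X : Type u} {ι : Type v} [LinearOrder ι]

/-- the class of `x` modulo the families of index `< i` -/
def cls (F : ι → Set (X → ℝ)) (i : ι) (x : X) : Set X := {y | ∀ l < i, ∀ g ∈ F l, g y = g x}

theorem self_mem_cls (F : ι → Set (X → ℝ)) (i : ι) (x : X) : x ∈ cls F i x := fun _ _ _ _ => rfl

theorem cls_congr {F F' : ι → Set (X → ℝ)} {i : ι} (h : ∀ l < i, F l = F' l) : cls F i = cls F' i := by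
  funext x
  ext y
  constructor
  · intro hy l hl g hg
    exact hy l hl g (by rw [h l hl]; exact hg)
  · intro hy l hl g hg
    exact hy l hl g (by rw [← h l hl]; exact hg)

theorem cls_anti (F : ι → Set (X → ℝ)) {i j : ι} (h : i ≤ j) (x : X) : cls F j x ⊆ cls F i x :=
  fun _ hy l hl g hg => hy l (hl.trans_le h) g hg

theorem cls_eq_of_mem (F : ι → Set (X → ℝ)) {i : ι} {x y : X} (h : y ∈ cls F i x) :
    cls F i y = cls F i x := by
  ext z
  constructor
  · intro hz l hl g hg
    rw [hz l hl g hg, h l hl g hg]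
  · intro hz l hl g hg
    rw [hz l hl g hg, h l hl g hg]

/-- the chosen points -/
def pt (c : Set X → X) (F : ι → Set (X → ℝ)) (i : ι) (x : X) : X := c (cls F i x)

theorem pt_congr (c : Set X → X) {F F' : ι → Set (X → ℝ)} {i : ι} (h : ∀ l < i, F l = F' l) :
    pt c F i = pt c F' i := by
  funext x
  simp only [pt, cls_congr h]

theorem pt_eq_of_mem (c : Set X → X) (F : ι → Set (X → ℝ)) {i : ι} {x y : X}
    (h : y ∈ cls F i x) : pt c F i y = pt c F i x := by
  simp only [pt, cls_eq_of_mem F h]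

variable [TopologicalSpace X]

/-- the closure of the countable set of the points chosen up to `i` -/
def Sx (c : Set X → X) (F : ι → Set (X → ℝ)) (i : ι) (x : X) : Set X :=
  closure ((fun l => pt c F l x) '' Iic i)

theorem Sx_congr (c : Set X → X) {F F' : ι → Set (X → ℝ)} {i : ι} (h : ∀ l < i, F l = F' l) :
    Sx c F i = Sx c F' i := by
  funext x
  unfold Sx
  congr 1
  refine image_congr fun l hl => ?_
  rw [pt_congr c fun k hk => h k (hk.trans_le hl)]

theorem Sx_eq_of_mem (c : Set X → X) (F : ι → Set (X → ℝ)) {i : ι} {x y : X}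
    (h : y ∈ cls F i x) : Sx c F i y = Sx c F i x := by
  unfold Sx
  congr 1
  refine image_congr fun l hl => ?_
  exact pt_eq_of_mem c F (cls_anti F hl x h)

/-- the functional defining the families -/
def Psi (Ls : Set X → Set (X → ℝ)) (c : Set X → X) (cd : Set X → X → ℕ → ℕ)
    (F : ι → Set (X → ℝ)) (i : ι) : Set (X → ℝ) :=
  Ls {x | x ∈ Sx c F i x} ∪
    ⋃ p : ℕ × ℕ, Ls {x | x ∈ Sx c F i x ∧ cd (Sx c F i x) x p.1 = p.2}

theorem exists_fixed [WellFoundedLT ι] (Ls : Set X → Set (X → ℝ)) (c : Set X → X)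
    (cd : Set X → X → ℕ → ℕ) : ∃ F : ι → Set (X → ℝ), ∀ i, F i = Psi Ls c cd F i := by
  classical
  let Φ : (i : ι) → ((l : ι) → l < i → Set (X → ℝ)) → Set (X → ℝ) := fun i prev =>
    Psi Ls c cd (fun l => if h : l < i then prev l h else ∅) i
  let F : ι → Set (X → ℝ) := (wellFounded_lt (α := ι)).fix Φ
  refine ⟨F, fun i => ?_⟩
  have h1 : F i = Φ i (fun l _ => F l) := (wellFounded_lt (α := ι)).fix_eq Φ i
  rw [h1]
  have h2 : ∀ l < i, (fun l => if h : l < i then F l else ∅) l = F l := by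
    intro l hl
    simp only [dif_pos hl]
  simp only [Φ, Psi]
  rw [Sx_congr c h2]

end recursion

section resolution

variable {X : Type u} [TopologicalSpace X] [CompactSpace X] [T2Space X]

/-- **Resolution theorem.** -/
theorem exists_resolution {ι : Type v} [LinearOrder ι] [WellFoundedLT ι]
    (hIio : ∀ i : ι, (Iio i).Countable)
    (hbdd : ∀ s : Set ι, s.Countable → ∃ j, ∀ i ∈ s, i < j)
    (enc : ι → ℕ → ℕ) (henc : Function.Injective enc)
    (Ls : Set X → Set (X → ℝ)) (hLs : ∀ A, IsLS (Ls A)) (hLc : ∀ A, ∀ g ∈ Ls A, Continuous g)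
    (hLn : ∀ A, ∀ g ∈ Ls A, (fun x => - g x) ∈ Ls A)
    (hsp : ∀ A, ∀ x ∈ A, ∀ y, y ∉ A → ∃ g ∈ Ls A, g x ≠ g y) :
    ∃ (F : ι → Set (X → ℝ)) (Fψ : Set (X → ℝ)),
      (∀ i, IsLS (F i) ∧ (∀ g ∈ F i, Continuous g) ∧ ∀ g ∈ F i, (fun x => - g x) ∈ F i) ∧
      (IsLS Fψ ∧ (∀ g ∈ Fψ, Continuous g) ∧ ∀ g ∈ Fψ, (fun x => - g x) ∈ Fψ) ∧
      (∀ x y, (∀ i, ∀ g ∈ F i, g y = g x) → y = x) ∧
      (∀ δ x, ∃ p ∈ cls F δ x, ∀ z ∈ cls F δ x, (∀ g ∈ Fψ, g z = g p) → z = p) := by
  classical
  rcases isEmpty_or_nonempty X with hX | hX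
  · exact ⟨fun _ => ∅, ∅, fun i => ⟨IsLS.empty, by simp, by simp⟩, ⟨IsLS.empty, by simp, by simp⟩,
      fun x => (hX.false x).elim, fun _ x => (hX.false x).elim⟩
  have hc : ∃ c : Set X → X, ∀ S : Set X, S.Nonempty → c S ∈ S := by
    refine ⟨fun S => if h : S.Nonempty then h.some else Classical.arbitrary X, fun S hS => ?_⟩
    simp only [dif_pos hS]
    exact hS.some_mem
  obtain ⟨c, hc⟩ := hc
  have hcd : ∃ cd : Set X → X → ℕ → ℕ, ∀ B : Set X, B.Countable →
      InjOn (cd (closure B)) (closure B) := by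
    have : ∀ S : Set X, ∃ code : X → ℕ → ℕ, (∃ B : Set X, B.Countable ∧ S = closure B) →
        InjOn code S := by
      intro S
      by_cases h : ∃ B : Set X, B.Countable ∧ S = closure B
      · obtain ⟨B, hB, rfl⟩ := h
        obtain ⟨code, hcode⟩ := exists_code (X := X)
          (fun A => ⟨Ls A, hLs A, hLc A, hsp A⟩) B hB
        exact ⟨code, fun _ => hcode⟩
      · exact ⟨fun _ _ => 0, fun h' => absurd h' h⟩
    choose cd hcd using this
    exact ⟨cd, fun B hB => hcd _ ⟨B, hB, rfl⟩⟩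
  obtain ⟨cd, hcd⟩ := hcd
  obtain ⟨F, hF⟩ := exists_fixed (ι := ι) Ls c cd
  have hIic : ∀ i : ι, (Iic i).Countable := by
    intro i
    rw [← Iio_insert]
    exact (hIio i).insert i
  -- Lemma B
  have hB : ∀ i x, x ∈ Sx c F i x → ∀ y, (∀ l ≤ i, ∀ g ∈ F l, g y = g x) → y = x := by
    intro i x hx y hy
    have hcls : y ∈ cls F i x := fun l hl g hg => hy l hl.le g hg
    have hS : Sx c F i y = Sx c F i x := Sx_eq_of_mem c F hcls
    have hmemF : ∀ g ∈ Psi Ls c cd F i, g y = g x := by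
      intro g hg
      rw [← hF i] at hg
      exact hy i le_rfl g hg
    have hyS : y ∈ Sx c F i y := by
      by_contra hno
      obtain ⟨g, hg, hne⟩ := hsp {x | x ∈ Sx c F i x} x hx y hno
      exact hne (hmemF g (Or.inl hg)).symm
    have hcode : cd (Sx c F i x) y = cd (Sx c F i x) x := by
      funext n
      by_contra hno
      have hyA : y ∉ {x' | x' ∈ Sx c F i x' ∧ cd (Sx c F i x') x' n = cd (Sx c F i x) x n} := by
        rintro ⟨_, h2⟩
        rw [hS] at h2
        exact hno h2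
      obtain ⟨g, hg, hne⟩ := hsp {x' | x' ∈ Sx c F i x' ∧
        cd (Sx c F i x') x' n = cd (Sx c F i x) x n} x ⟨hx, rfl⟩ y hyA
      exact hne (hmemF g (Or.inr (mem_iUnion.2 ⟨(n, cd (Sx c F i x) x n), hg⟩))).symm
    rw [hS] at hyS
    exact hcd _ ((hIic i).image _) hyS hx hcode
  -- Lemma A
  have hA : ∀ x, ∃ i, x ∈ Sx c F i x := by
    intro x
    by_contra hcon
    push Not at hcon
    have hdisj : ∀ i y, (∀ l ≤ i, ∀ g ∈ F l, g y = g x) → y ∉ Sx c F i x := by
      intro i y hy hyS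
      have hcls : y ∈ cls F i x := fun l hl g hg => hy l hl.le g hg
      have hS : Sx c F i y = Sx c F i x := Sx_eq_of_mem c F hcls
      have hyA : y ∈ {x | x ∈ Sx c F i x} := by
        show y ∈ Sx c F i y
        rw [hS]; exact hyS
      obtain ⟨g, hg, hne⟩ := hsp _ y hyA x (hcon i)
      have hg' : g ∈ F i := by
        rw [hF i]; exact Or.inl hg
      exact hne (hy i le_rfl g hg')
    -- a complete accumulation point
    obtain ⟨i0, _⟩ := hbdd ∅ countable_empty
    have : Nonempty ι := ⟨i0⟩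
    have hptmem : ∀ l, pt c F l x ∈ cls F l x := fun l => hc (cls F l x) ⟨x, self_mem_cls F l x⟩
    have hne : (⋂ i : ι, closure ((fun l => pt c F l x) '' Ici i)).Nonempty := by
      refine IsCompact.nonempty_iInter_of_directed_nonempty_isCompact_isClosed _ ?_ ?_ ?_ ?_
      · have : Antitone (fun i : ι => closure ((fun l => pt c F l x) '' Ici i)) := by
          intro i j hij
          exact closure_mono (image_mono (Ici_subset_Ici.2 hij))
        exact this.directed_ge
      · intro i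
        exact ⟨pt c F i x, subset_closure ⟨i, mem_Ici.2 le_rfl, rfl⟩⟩
      · exact fun i => isClosed_closure.isCompact
      · exact fun i => isClosed_closure
    obtain ⟨p, hp⟩ := hne
    have hpg : ∀ l, ∀ g ∈ F l, g p = g x := by
      intro l g hg
      obtain ⟨j, hj⟩ := hbdd {l} (countable_singleton l)
      have hlj : l < j := hj l rfl
      have hpj := mem_iInter.1 hp j
      have hgc : Continuous g := by
        rw [hF l] at hg
        rcases hg with hg | hg
        · exact hLc _ g hg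
        · obtain ⟨q, hq⟩ := mem_iUnion.1 hg
          exact hLc _ g hq
      have hclosed : IsClosed {y | g y = g x} := isClosed_eq hgc continuous_const
      refine hclosed.closure_subset_iff.2 ?_ hpj
      rintro _ ⟨k, hk, rfl⟩
      exact hptmem k l (hlj.trans_le hk) g hg
    have hpcl : p ∈ closure (range fun l => pt c F l x) := by
      refine closure_mono ?_ (mem_iInter.1 hp i0)
      rintro _ ⟨k, _, rfl⟩
      exact ⟨k, rfl⟩
    obtain ⟨B0, hB0, hB0c, hpB0⟩ := tight_of_split p (Ls {p}) (hLs _) (hLc _)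
      (fun y hy => hsp {p} p rfl y hy) _ hpcl
    obtain ⟨T, hT⟩ : ∃ T : Set ι, T.Countable ∧ B0 = (fun l => pt c F l x) '' T := by
      have : ∀ b ∈ B0, ∃ l, pt c F l x = b := fun b hb => hB0 hb
      choose! l hl using this
      refine ⟨l '' B0, hB0c.image l, ?_⟩
      ext b
      constructor
      · intro hb
        exact ⟨l b, ⟨b, hb, rfl⟩, hl b hb⟩
      · rintro ⟨_, ⟨b', hb', rfl⟩, rfl⟩
        simp only [hl b' hb']
        exact hb'
    obtain ⟨hTc, rfl⟩ := hT
    obtain ⟨j, hj⟩ := hbdd T hTc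
    refine hdisj j p (fun l _ g hg => hpg l g hg) ?_
    refine closure_mono (image_mono ?_) hpB0
    exact fun l hl => mem_Iic.2 (hj l hl).le
  -- the least index
  have hmin : ∀ x, ∃ i, x ∈ Sx c F i x ∧ ∀ j, x ∈ Sx c F j x → i ≤ j := by
    intro x
    refine ⟨(wellFounded_lt (α := ι)).min {i | x ∈ Sx c F i x} (hA x),
      (wellFounded_lt (α := ι)).min_mem {i | x ∈ Sx c F i x} (hA x), fun j hj => ?_⟩
    exact not_lt.1 ((wellFounded_lt (α := ι)).not_lt_min {i | x ∈ Sx c F i x} hj)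
  choose ix hix1 hix2 using hmin
  let Fψ : Set (X → ℝ) := (⋃ p : ℕ × ℕ, Ls {x | enc (ix x) p.1 = p.2}) ∪
    ⋃ p : ℕ × ℕ, Ls {x | cd (Sx c F (ix x) x) x p.1 = p.2}
  refine ⟨F, Fψ, ?_, ?_, ?_, ?_⟩
  · intro i
    rw [hF i]
    refine ⟨(hLs _).union (IsLS.iUnion fun p => hLs _), ?_, ?_⟩
    · rintro g (hg | hg)
      · exact hLc _ g hg
      · obtain ⟨q, hq⟩ := mem_iUnion.1 hg
        exact hLc _ g hq
    · rintro g (hg | hg)
      · exact Or.inl (hLn _ g hg)
      · obtain ⟨q, hq⟩ := mem_iUnion.1 hg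
        exact Or.inr (mem_iUnion.2 ⟨q, hLn _ g hq⟩)
  · refine ⟨(IsLS.iUnion fun p => hLs _).union (IsLS.iUnion fun p => hLs _), ?_, ?_⟩
    · rintro g (hg | hg)
      · obtain ⟨q, hq⟩ := mem_iUnion.1 hg
        exact hLc _ g hq
      · obtain ⟨q, hq⟩ := mem_iUnion.1 hg
        exact hLc _ g hq
    · rintro g (hg | hg)
      · obtain ⟨q, hq⟩ := mem_iUnion.1 hg
        exact Or.inl (mem_iUnion.2 ⟨q, hLn _ g hq⟩)
      · obtain ⟨q, hq⟩ := mem_iUnion.1 hg
        exact Or.inr (mem_iUnion.2 ⟨q, hLn _ g hq⟩)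
  · intro x y hxy
    obtain ⟨i, hi⟩ := hA x
    exact hB i x hi y fun l _ g hg => hxy l g hg
  · intro δ x
    have hpmem : c (cls F δ x) ∈ cls F δ x := hc (cls F δ x) ⟨x, self_mem_cls F δ x⟩
    set p := c (cls F δ x) with hp
    refine ⟨p, hpmem, ?_⟩
    intro z hz hzp
    have hzp' : z ∈ cls F δ p := by
      rw [cls_eq_of_mem F hpmem]; exact hz
    have hpS : p ∈ Sx c F δ p := by
      apply subset_closure
      refine ⟨δ, mem_Iic.2 le_rfl, ?_⟩
      simp only [pt]
      rw [cls_eq_of_mem F hpmem]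
    have hipδ : ix p ≤ δ := hix2 p δ hpS
    have hixeq : ix z = ix p := by
      apply henc
      funext n
      by_contra hno
      obtain ⟨g, hg, hne⟩ := hsp {x | enc (ix x) n = enc (ix p) n} p rfl z hno
      exact hne (hzp g (Or.inl (mem_iUnion.2 ⟨(n, enc (ix p) n), hg⟩))).symm
    have hcdeq : cd (Sx c F (ix z) z) z = cd (Sx c F (ix p) p) p := by
      funext n
      by_contra hno
      obtain ⟨g, hg, hne⟩ := hsp {x | cd (Sx c F (ix x) x) x n = cd (Sx c F (ix p) p) p n} p rfl z hno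
      exact hne (hzp g (Or.inr (mem_iUnion.2 ⟨(n, cd (Sx c F (ix p) p) p n), hg⟩))).symm
    have hSz : Sx c F (ix z) z = Sx c F (ix p) p := by
      rw [hixeq]
      exact Sx_eq_of_mem c F (cls_anti F hipδ p hzp')
    have hzS : z ∈ Sx c F (ix p) p := by
      rw [← hSz]; exact hix1 z
    rw [hSz] at hcdeq
    exact hcd _ ((hIic (ix p)).image _) hzS (hix1 p) hcdeq

end resolution

end Pool.Agent.Lib_helper94.Gulko
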