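import Pool.Agent.Lib_helper94.GulkoE
import Pool.Agent.Lib_helper94.GulkoD

set_option autoImplicit false

open Set Filter Topology

universe u v w

namespace Pool.Agent.Lib_helper94.Gulko

section assembly

variable {X : Type u} [TopologicalSpace X]

/-- the set of points whose class is contained in an open set is open -/
theorem isOpen_class_subset [CompactSpace X] (F : Set (X → ℝ)) (hF : ∀ g ∈ F, Continuous g)
    (U : Set X) (hU : IsOpen U) : IsOpen {y : X | {y' | ∀ g ∈ F, g y' = g y} ⊆ U} := by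
  have hcl : IsClosed {p : X × X | p.1 ∈ Uᶜ ∧ ∀ g ∈ F, g p.1 = g p.2} := by
    refine IsClosed.inter (hU.isClosed_compl.preimage continuous_fst) ?_
    have : {p : X × X | ∀ g ∈ F, g p.1 = g p.2} = ⋂ g ∈ F, {p : X × X | g p.1 = g p.2} := by
      ext p; simp
    have h2 : IsClosed (⋂ g ∈ F, {p : X × X | g p.1 = g p.2}) :=
      isClosed_biInter fun g hg => isClosed_eq ((hF g hg).comp continuous_fst)
        ((hF g hg).comp continuous_snd)
    rw [← this] at h2
    exact h2
  have himg := isClosedMap_snd_of_compactSpace _ hcl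
  have : {y : X | {y' | ∀ g ∈ F, g y' = g y} ⊆ U} =
      (Prod.snd '' {p : X × X | p.1 ∈ Uᶜ ∧ ∀ g ∈ F, g p.1 = g p.2})ᶜ := by
    ext y
    constructor
    · rintro hy ⟨⟨a, b⟩, ⟨h1, h2⟩, rfl⟩
      exact h1 (hy h2)
    · intro hy y' hy'
      by_contra hno
      exact hy ⟨(y', y), ⟨hno, hy'⟩, rfl⟩
  rw [this]
  exact himg.isOpen_compl

theorem cls_eq_setOf {ι : Type v} [LinearOrder ι] (F : ι → Set (X → ℝ)) (i : ι) (y : X) :
    cls F i y = {y' | ∀ g ∈ ⋃ l ∈ Iio i, F l, g y' = g y} := by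
  ext y'
  constructor
  · intro h g hg
    simp only [mem_iUnion] at hg
    obtain ⟨l, hl, hg⟩ := hg
    exact h l hl g hg
  · intro h l hl g hg
    exact h g (mem_biUnion hl hg)

/-- finitely many dense requirements -/
theorem exists_dec_finite {τ : Type w} (L : τ → Set (X → ℝ))
    (hLc : ∀ t, ∀ g ∈ L t, Continuous g) (N : τ → ℕ → Set (X → ℝ)) (q : τ → Finset ℕ × ℚ × ℚ)
    (W : τ → Set X) (T : Set τ) (hT : T.Finite) (V : Set X) (hV : IsOpen V) (hVne : V.Nonempty) :
    ∃ V' ⊆ V, IsOpen V' ∧ V'.Nonempty ∧ ∀ t ∈ T, Dec (L t) (N t) (q t) (W t) V' := by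
  induction T, hT using Set.Finite.induction_on with
  | empty => exact ⟨V, subset_rfl, hV, hVne, by simp⟩
  | @insert t S _ _ ih =>
    obtain ⟨V', hV', ho, hne, hd⟩ := ih
    obtain ⟨V'', hV'', ho', hne', hd'⟩ := Dec.dense (hLc t) (N t) (q t) (W t) V' ho hne
    refine ⟨V'', hV''.trans hV', ho', hne', ?_⟩
    intro s hs
    rcases hs with rfl | hs
    · exact hd'
    · exact (hd s hs).mono hV''

theorem exists_dense_metrizable [CompactSpace X] [T2Space X]
    (Ls : Set X → Set (X → ℝ)) (hLs : ∀ A, IsLS (Ls A)) (hLc : ∀ A, ∀ g ∈ Ls A, Continuous g)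
    (hLn : ∀ A, ∀ g ∈ Ls A, (fun x => - g x) ∈ Ls A)
    (hsp : ∀ A, ∀ x ∈ A, ∀ y, y ∉ A → ∃ g ∈ Ls A, g x ≠ g y) :
    ∃ G : Set X, Dense G ∧ TopologicalSpace.MetrizableSpace G := by
  classical
  obtain ⟨ι, _, _, hIio, hbdd, enc, henc⟩ := exists_omega_one
  obtain ⟨F, Fψ, hF, hψ, hsep, hres⟩ := exists_resolution hIio hbdd enc henc Ls hLs hLc hLn hsp
  -- the families below an index
  let FL : Option ι → Set (X → ℝ) := fun o => o.elim Fψ (fun i => ⋃ l ∈ Iio i, F l)
  have hFLs : ∀ o, IsLS (FL o) := by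
    intro o
    cases o with
    | none => exact hψ.1
    | some i =>
      have : FL (some i) = ⋃ l : Iio i, F l := by
        simp only [FL, Option.elim_some]
        rw [biUnion_eq_iUnion]
      rw [this]
      have : Countable (Iio i) := (hIio i).to_subtype
      exact IsLS.iUnion fun l => (hF l).1
  have hFLc : ∀ o, ∀ g ∈ FL o, Continuous g := by
    intro o g hg
    cases o with
    | none => exact hψ.2.1 g hg
    | some i =>
      simp only [FL, Option.elim_some, mem_iUnion] at hg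
      obtain ⟨l, _, hg⟩ := hg
      exact (hF l).2.1 g hg
  have hFLn : ∀ o, ∀ g ∈ FL o, (fun x => - g x) ∈ FL o := by
    intro o g hg
    cases o with
    | none => exact hψ.2.2 g hg
    | some i =>
      simp only [FL, Option.elim_some, mem_iUnion] at hg ⊢
      obtain ⟨l, hl, hg⟩ := hg
      exact ⟨l, hl, (hF l).2.2 g hg⟩
  choose C N hCN using hFLs
  obtain ⟨q, hq⟩ := exists_surjective_nat (Finset ℕ × ℚ × ℚ)
  -- the requirements attached to a history
  let T : List (Set X × ι × X) → Set (Option ι × ℕ × Set X) := fun h =>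
    (insert none ((fun b : Set X × ι × X => some b.2.1) '' {b | b ∈ h})) ×ˢ
      ({k | k ≤ h.length} ×ˢ {W | W ⊆ (fun b : Set X × ι × X => b.2.2) '' {b | b ∈ h}})
  have hTfin : ∀ h, (T h).Finite := by
    intro h
    have hfin : {b | b ∈ h}.Finite := List.finite_toSet h
    refine ((hfin.image _).insert _).prod ((finite_le_nat _).prod ?_)
    exact (hfin.image _).finite_subsets
  let tp : Set X × ι × X → Set X := fun b => b.1
  let R : List (Set X × ι × X) → Set X × ι × X → Prop := fun h b =>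
    (∀ b' ∈ h, b'.2.1 ≤ b.2.1) ∧ (∀ y ∈ b.1, cls F b.2.1 y ⊆ top tp h) ∧ b.2.2 ∈ b.1 ∧
      ∀ t ∈ T h, Dec (FL t.1) (N t.1) (q t.2.1) t.2.2 b.1
  have hclsclosed : ∀ i y, IsClosed (cls F i y) := by
    intro i y
    have : cls F i y = ⋂ g ∈ ⋃ l ∈ Iio i, F l, {y' | g y' = g y} := by
      rw [cls_eq_setOf]
      ext y'; simp only [mem_iInter]; rfl
    rw [this]
    exact isClosed_biInter fun g hg => isClosed_eq (hFLc (some i) g hg) continuous_const
  obtain ⟨i0, _⟩ := hbdd ∅ countable_empty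
  have : Nonempty ι := ⟨i0⟩
  have hext : ∀ (h : List (Set X × ι × X)) (W : Set X), IsOpen (top tp h) → IsOpen W →
      W.Nonempty → W ⊆ top tp h →
      ∃ b, R h b ∧ IsOpen (tp b) ∧ (tp b).Nonempty ∧ tp b ⊆ W ∧ closure (tp b) ⊆ top tp h := by
    intro h W hho hW hWne hWh
    obtain ⟨y0, hy0⟩ := hWne
    have hdir : Directed (fun s t => s ⊇ t) (fun i : ι => cls F i y0) := by
      have : Antitone (fun i : ι => cls F i y0) := fun i j hij => cls_anti F hij y0
      exact this.directed_ge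
    obtain ⟨i, hi⟩ := exists_subset_nhds_of_compactSpace (V := fun i : ι => cls F i y0) hdir
      (fun i => hclsclosed i y0) (U := top tp h) (by
        intro y hy
        have : y = y0 := by
          refine hsep y0 y fun l g hg => ?_
          obtain ⟨j, hj⟩ := hbdd {l} (countable_singleton l)
          exact mem_iInter.1 hy j l (hj l rfl) g hg
        rw [this]
        exact hho.mem_nhds (hWh hy0))
    obtain ⟨j, hj⟩ := hbdd (insert i ((fun b : Set X × ι × X => b.2.1) '' {b | b ∈ h}))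
      (((List.finite_toSet h).image _).countable.insert i)
    have hVo : IsOpen (W ∩ {y | cls F j y ⊆ top tp h}) := by
      refine hW.inter ?_
      have := isOpen_class_subset (⋃ l ∈ Iio j, F l) (hFLc (some j)) (top tp h) hho
      simp only [cls_eq_setOf]
      exact this
    have hVne : (W ∩ {y | cls F j y ⊆ top tp h}).Nonempty :=
      ⟨y0, hy0, (cls_anti F (hj i (mem_insert _ _)).le y0).trans hi⟩
    obtain ⟨V', hV'sub, hV'o, ⟨z, hz⟩, hV'd⟩ := exists_dec_finite
      (fun t : Option ι × ℕ × Set X => FL t.1) (fun t => hFLc t.1) (fun t => N t.1)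
      (fun t => q t.2.1) (fun t => t.2.2) (T h) (hTfin h) _ hVo hVne
    obtain ⟨V'', hV''o, hzV'', hV''cl⟩ : ∃ V'' : Set X, IsOpen V'' ∧ z ∈ V'' ∧ closure V'' ⊆ V' := by
      obtain ⟨K, hK, hKc, hKV⟩ := exists_mem_nhds_isClosed_subset (hV'o.mem_nhds hz)
      refine ⟨interior K, isOpen_interior, mem_interior_iff_mem_nhds.2 hK, ?_⟩
      exact (hKc.closure_subset_iff.2 interior_subset).trans hKV
    have hsub : V'' ⊆ V' := subset_closure.trans hV''cl
    refine ⟨(V'', j, z), ⟨?_, ?_, hzV'', ?_⟩, hV''o, ⟨z, hzV''⟩, ?_, ?_⟩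
    · intro b' hb'
      exact (hj b'.2.1 (mem_insert_of_mem _ ⟨b', hb', rfl⟩)).le
    · intro y hy
      exact (hV'sub (hsub hy)).2
    · intro t ht
      exact (hV'd t ht).mono hsub
    · exact fun y hy => (hV'sub (hsub hy)).1
    · exact fun y hy => hWh (hV'sub (hV''cl hy)).1
  obtain ⟨G, H, hGd, hH0, hHS, huniq⟩ := exists_tree tp R hext
  refine ⟨G, hGd, metrizable_of_tree tp G H (fun x hx n => ?_) hH0 huniq ?_⟩
  · obtain ⟨b, h1, _, h3, h4, h5⟩ := hHS x hx n
    exact ⟨b, h1, h3, h4, h5⟩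
  intro x hx
  -- the branch of `x`
  choose b hb1 hb2 hb3 hb4 hb5 using hHS x hx
  have hlen : ∀ n, (H n x).length = n := by
    intro n
    induction n with
    | zero => rw [hH0 x hx]; rfl
    | succ n ih => rw [hb1 n, List.length_cons, ih]
  have hmemH : ∀ n m, m < n → b m ∈ H n x := by
    intro n
    induction n with
    | zero => intro m hm; exact absurd hm (Nat.not_lt_zero m)
    | succ n ih =>
      intro m hm
      rw [hb1 n]
      rcases Nat.lt_succ_iff_lt_or_eq.1 hm with h | h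
      · exact List.mem_cons_of_mem _ (ih m h)
      · rw [h]; exact List.mem_cons_self
  have htopS : ∀ n, top tp (H (n + 1) x) = (b n).1 := by
    intro n
    rw [hb1 n]; rfl
  let U : ℕ → Set X := fun n => (b n).1
  let z : ℕ → X := fun n => (b n).2.2
  have hUanti : Antitone U := by
    refine antitone_nat_of_succ_le fun n => ?_
    have := hb5 (n + 1)
    rw [htopS n] at this
    exact subset_closure.trans this
  have hzU : ∀ n, z n ∈ U n := fun n => (hb2 n).2.2.1
  have hUdec : ∀ (o : Option ι), (o = none ∨ ∃ m, o = some (b m).2.1) →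
      ∀ (q0 : Finset ℕ × ℚ × ℚ) (w : Finset ℕ), ∃ k, Dec (FL o) (N o) q0 (z '' w) (U k) := by
    intro o ho q0 w
    obtain ⟨k0, hk0⟩ := hq q0
    obtain ⟨M, hM⟩ : ∃ M : ℕ, ∀ j ∈ w, j < M :=
      ⟨w.sup id + 1, fun j hj => Nat.lt_succ_of_le (Finset.le_sup (f := id) hj)⟩
    have hgen : ∀ n, k0 ≤ n → M ≤ n → (o = none ∨ ∃ m < n, o = some (b m).2.1) →
        Dec (FL o) (N o) q0 (z '' w) (U n) := by
      intro n hn1 hn2 hn3
      have ht : ((o, k0, z '' w) : Option ι × ℕ × Set X) ∈ T (H n x) := by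
        refine ⟨?_, ?_, ?_⟩
        · rcases hn3 with h | ⟨m, hm, h⟩
          · exact Or.inl h
          · exact Or.inr ⟨b m, hmemH n m hm, h.symm⟩
        · show k0 ≤ (H n x).length
          rw [hlen n]; exact hn1
        · rintro _ ⟨j, hj, rfl⟩
          exact ⟨b j, hmemH n j ((hM j hj).trans_le hn2), rfl⟩
      have := (hb2 n).2.2.2 _ ht
      simp only [hk0] at this
      exact this
    rcases ho with ho | ⟨m, ho⟩
    · exact ⟨max k0 M, hgen _ (le_max_left _ _) (le_max_right _ _) (Or.inl ho)⟩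
    · refine ⟨max (max k0 M) (m + 1), hgen _ ?_ ?_ (Or.inr ⟨m, ?_, ho⟩)⟩
      · exact (le_max_left _ _).trans (le_max_left _ _)
      · exact (le_max_right _ _).trans (le_max_left _ _)
      · exact lt_of_lt_of_le (Nat.lt_succ_self m) (le_max_right _ _)
  obtain ⟨x0, hx0⟩ := exists_clusterPt_of_compactSpace (map z atTop)
  have hx0 : MapClusterPt x0 atTop z := hx0
  have hconst : ∀ (o : Option ι), (o = none ∨ ∃ m, o = some (b m).2.1) → ∀ g ∈ FL o,
      ∀ y, (∀ n, y ∈ U n) → g y = g x0 := by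
    intro o ho g hg y hy
    exact generic_constancy (hCN o) (hFLc o) (hFLn o) U hUanti z hzU (hUdec o ho) x0 hx0 g hg y hy
  -- the supremum of the indices
  obtain ⟨δ, hδ1, hδ2⟩ : ∃ δ, (∀ n, (b n).2.1 ≤ δ) ∧ ∀ l < δ, ∃ n, l < (b n).2.1 := by
    obtain ⟨j, hj⟩ := hbdd (range fun n => (b n).2.1) (countable_range _)
    have hne : {δ | ∀ n, (b n).2.1 ≤ δ}.Nonempty := ⟨j, fun n => (hj _ ⟨n, rfl⟩).le⟩
    refine ⟨(wellFounded_lt (α := ι)).min _ hne, (wellFounded_lt (α := ι)).min_mem _ hne, ?_⟩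
    intro l hl
    by_contra hcon
    push Not at hcon
    exact (wellFounded_lt (α := ι)).not_lt_min {δ | ∀ n, (b n).2.1 ≤ δ} hcon hl
  have hxU : ∀ n, x ∈ U n := fun n => hb4 n
  obtain ⟨p, hp, hpz⟩ := hres δ x
  have hZcls : ∀ y, (∀ n, y ∈ U n) → y ∈ cls F δ x := by
    intro y hy l hl g hg
    obtain ⟨n, hn⟩ := hδ2 l hl
    have hgF : g ∈ FL (some (b n).2.1) := by
      simp only [FL, Option.elim_some]
      exact mem_biUnion (show l ∈ Iio (b n).2.1 from hn) hg
    rw [hconst _ (Or.inr ⟨n, rfl⟩) g hgF y hy, hconst _ (Or.inr ⟨n, rfl⟩) g hgF x hxU]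
  have hpU : ∀ n, p ∈ U n := by
    intro n
    have h1 := (hb2 (n + 1)).2.1 x (hb4 (n + 1)) (cls_anti F (hδ1 (n + 1)) x hp)
    rw [htopS n] at h1
    exact h1
  have hall : ∀ y, (∀ n, y ∈ U n) → y = p := by
    intro y hy
    refine hpz y (hZcls y hy) fun g hg => ?_
    rw [hconst none (Or.inl rfl) g hg y hy, hconst none (Or.inl rfl) g hg p hpU]
  intro y hy
  have hyU : ∀ n, y ∈ U n := by
    intro n
    have := hy (n + 1)
    rwa [htopS n] at this
  rw [hall y hyU, hall x hxU]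

end assembly

end Pool.Agent.Lib_helper94.Gulko
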