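import Pool.Agent.Lib_helper94.GulkoF
import Pool.Agent.Lib_helper94.GulkoDefs

set_option autoImplicit false

open Set Filter Topology

universe u v w

namespace Pool.Agent.Lib_helper94.Gulko

/-- the predicate for spaces gives the predicate for subsets -/
theorem IsLindelofSigma.isLS_univ {Z : Type u} [TopologicalSpace Z] (h : IsLindelofSigma Z) :
    IsLS (univ : Set Z) := by
  obtain ⟨C, N, h1, h2, h3, h4⟩ := h
  obtain ⟨e, he⟩ := (h3.insert ∅).exists_eq_range (insert_nonempty _ _)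
  refine ⟨C, e, fun K hK => ⟨h1 K hK, subset_univ _⟩, ?_, fun n => subset_univ _, ?_⟩
  · intro x _
    have : x ∈ ⋃₀ C := by rw [h2]; trivial
    obtain ⟨K, hK, hx⟩ := this
    exact ⟨K, hK, hx⟩
  · intro K hK U hU hKU
    obtain ⟨M, hM, hKM, hMU⟩ := h4 K hK U hU hKU
    have : M ∈ range e := by rw [← he]; exact mem_insert_of_mem _ hM
    obtain ⟨n, rfl⟩ := this
    exact ⟨n, hKM, hMU⟩

theorem exists_families {X : Type u} [TopologicalSpace X] (h : SplittableOverGulko.{u, v} X)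
    (A : Set X) : ∃ L : Set (X → ℝ), IsLS L ∧ (∀ g ∈ L, Continuous g) ∧
      (∀ g ∈ L, (fun x => - g x) ∈ L) ∧ ∀ x ∈ A, ∀ y, y ∉ A → ∃ g ∈ L, g x ≠ g y := by
  obtain ⟨Y, _, ⟨hYc, hYt, hY⟩, f, hf, hfA⟩ := h A
  let Φ : Cp Y → X → ℝ := fun g x => g.1 (f x)
  have hind : Continuous (fun g : Cp Y => (g.1 : Y → ℝ)) := continuous_induced_dom
  have hΦ : Continuous Φ := by
    refine continuous_pi fun x => ?_
    exact (continuous_apply (f x)).comp hind
  refine ⟨Φ '' univ, hY.isLS_univ.image hΦ, ?_, ?_, ?_⟩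
  · rintro _ ⟨g, _, rfl⟩
    exact g.2.comp hf
  · rintro _ ⟨g, _, rfl⟩
    exact ⟨⟨fun y => - g.1 y, g.2.neg⟩, trivial, rfl⟩
  · intro x hx y hy
    have hne : f x ≠ f y := by
      intro e
      apply hy
      rw [← hfA]
      exact ⟨x, hx, e⟩
    obtain ⟨g, hg0, hg1, _⟩ := exists_continuous_zero_one_of_isClosed
      (isClosed_singleton (x := f x)) (isClosed_singleton (x := f y))
      (Set.disjoint_singleton.2 hne)
    refine ⟨Φ ⟨g, g.continuous⟩, ⟨_, trivial, rfl⟩, ?_⟩
    have e0 : g (f x) = 0 := hg0 rfl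
    have e1 : g (f y) = 1 := hg1 rfl
    show g (f x) ≠ g (f y)
    rw [e0, e1]
    exact zero_ne_one

theorem main {X : Type u} [TopologicalSpace X] [CompactSpace X] [T2Space X]
    (h : SplittableOverGulko.{u, v} X) :
    ∃ D : Set X, Dense D ∧ TopologicalSpace.MetrizableSpace D := by
  choose Ls h1 h2 h3 h4 using exists_families h
  exact exists_dense_metrizable Ls h1 h2 h3 h4

end Pool.Agent.Lib_helper94.Gulko
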