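import Mathlib

set_option autoImplicit false

open Cardinal

universe u

namespace Pool.Agent.Lib_helper94.SmallPartition

variable {G : Type u} [Group G]

/-- The subgroup generated by at most `μ` elements has at most `μ` elements (`μ` infinite). -/
theorem mk_closure_le (μ : Cardinal.{u}) (hμ : ℵ₀ ≤ μ) (S : Set G) (hS : #S ≤ μ) :
    #(Subgroup.closure S) ≤ μ := by
  rcases S.eq_empty_or_nonempty with rfl | hne
  · have : #(Subgroup.closure (∅ : Set G)) = 1 := by
      rw [Subgroup.closure_empty]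
      exact Cardinal.mk_eq_one _
    rw [this]
    exact le_trans (le_of_lt Cardinal.one_lt_aleph0) hμ
  · have : Nonempty S := hne.to_subtype
    have h1 : (FreeGroup.lift (Subtype.val : S → G)).range = Subgroup.closure S := by
      rw [FreeGroup.range_lift_eq_closure, Subtype.range_coe]
    have h2 : #((FreeGroup.lift (Subtype.val : S → G)).range) ≤ #(FreeGroup S) := by
      exact Cardinal.mk_le_of_surjective
        (f := (FreeGroup.lift (Subtype.val : S → G)).rangeRestrict)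
        (MonoidHom.rangeRestrict_surjective _)
    rw [h1] at h2
    refine h2.trans ?_
    rw [Cardinal.mk_freeGroup]
    exact max_le hS hμ

/-- Iterated closure under the group operations and under a set valued operation. -/
def iterClosure (S : Set G) (F : G → Set G) : ℕ → Subgroup G
  | 0 => Subgroup.closure S
  | n + 1 => Subgroup.closure ((iterClosure S F n : Set G) ∪ ⋃ x ∈ iterClosure S F n, F x)

/-- Closing a set of size at most `μ` under the group operations and under a set valued operation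
with values of size at most `μ`. -/
theorem exists_subgroup_closed (μ : Cardinal.{u}) (hμ : ℵ₀ ≤ μ) (S : Set G) (hS : #S ≤ μ)
    (F : G → Set G) (hF : ∀ x, #(F x) ≤ μ) :
    ∃ M : Subgroup G, S ⊆ M ∧ #M ≤ μ ∧ ∀ m ∈ M, F m ⊆ M := by
  obtain ⟨T, hT0, hTs⟩ : ∃ T : ℕ → Subgroup G, T 0 = Subgroup.closure S ∧
      ∀ n, T (n + 1) = Subgroup.closure ((T n : Set G) ∪ ⋃ x ∈ T n, F x) :=
    ⟨iterClosure S F, iterClosure.eq_1 S F, fun n => iterClosure.eq_2 S F n⟩
  have hmono : Monotone T := by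
    refine monotone_nat_of_le_succ fun n => ?_
    rw [hTs]
    intro x hx
    exact Subgroup.subset_closure (Or.inl hx)
  have hdir : Directed (· ≤ ·) T := hmono.directed_le
  have hcard : ∀ n, #(T n) ≤ μ := by
    intro n
    induction n with
    | zero => rw [hT0]; exact mk_closure_le μ hμ S hS
    | succ n ih =>
      rw [hTs]
      refine mk_closure_le μ hμ _ ?_
      refine (Cardinal.mk_union_le _ _).trans ?_
      have h1 : #(⋃ x ∈ T n, F x : Set G) ≤ μ := by
        refine (Cardinal.mk_biUnion_le _ _).trans ?_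
        have h2 : (⨆ x : (T n : Set G), #(F x.1)) ≤ μ := by
          refine ciSup_le' fun x => hF _
        calc #(T n : Set G) * (⨆ x : (T n : Set G), #(F x.1)) ≤ μ * μ :=
              mul_le_mul' ih h2
          _ = μ := Cardinal.mul_eq_self hμ
      calc #(T n : Set G) + #(⋃ x ∈ T n, F x : Set G) ≤ μ + μ := add_le_add ih h1
        _ = μ := Cardinal.add_eq_self hμ
  refine ⟨⨆ n, T n, ?_, ?_, ?_⟩
  · intro x hx
    have : x ∈ T 0 := by rw [hT0]; exact Subgroup.subset_closure hx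
    exact (Subgroup.mem_iSup_of_directed hdir).2 ⟨0, this⟩
  · have h1 : #((⨆ n, T n : Subgroup G) : Set G) ≤ μ := by
      rw [Subgroup.coe_iSup_of_directed hdir]
      have h3 : #(⋃ n : ULift.{u} ℕ, (T n.down : Set G)) ≤ μ := by
        refine (Cardinal.mk_iUnion_le _).trans ?_
        have h2 : (⨆ x : ULift.{u} ℕ, #(T x.down : Set G)) ≤ μ := by
          refine ciSup_le' fun x => hcard _
        calc #(ULift.{u} ℕ) * (⨆ x : ULift.{u} ℕ, #(T x.down : Set G)) ≤ μ * μ := by
              refine mul_le_mul' ?_ h2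
              simpa using hμ
          _ = μ := Cardinal.mul_eq_self hμ
      have h4 : (⋃ n, (T n : Set G)) = ⋃ n : ULift.{u} ℕ, (T n.down : Set G) := by
        ext x; simp
      rw [h4]; exact h3
    exact h1
  · intro m hm y hy
    obtain ⟨n, hn⟩ := (Subgroup.mem_iSup_of_directed hdir).1 hm
    have : y ∈ T (n + 1) := by
      rw [hTs]
      refine Subgroup.subset_closure (Or.inr ?_)
      simp only [Set.mem_iUnion]
      exact ⟨m, hn, hy⟩
    exact (Subgroup.mem_iSup_of_directed hdir).2 ⟨n + 1, this⟩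

/-! ### The filtration given by a well order of `G` -/

section levels

variable [LinearOrder G]

/-- subgroup generated by the elements `≤ a` -/
def Gle (a : G) : Subgroup G := Subgroup.closure (Set.Iic a)

/-- subgroup generated by the elements `< a` -/
def Glt (a : G) : Subgroup G := Subgroup.closure (Set.Iio a)

theorem mem_Gle_self (a : G) : a ∈ Gle a := Subgroup.subset_closure (Set.mem_Iic.2 le_rfl)

theorem Gle_mono {a b : G} (h : a ≤ b) : Gle a ≤ Gle b :=
  Subgroup.closure_mono (Set.Iic_subset_Iic.2 h)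

theorem Glt_le_Gle (a : G) : Glt a ≤ Gle a :=
  Subgroup.closure_mono Set.Iio_subset_Iic_self

theorem Gle_le_Glt {a b : G} (h : a < b) : Gle a ≤ Glt b :=
  Subgroup.closure_mono (fun _ hx => lt_of_le_of_lt hx h)

/-- elements of a subgroup generated by a down-closed set -/
theorem exists_of_mem_closure (B : Set G) {x : G} (hx : x ∈ Subgroup.closure B) :
    x = 1 ∨ ∃ b ∈ B, x ∈ Gle b := by
  induction hx using Subgroup.closure_induction with
  | mem y hy => exact Or.inr ⟨y, hy, mem_Gle_self y⟩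
  | one => exact Or.inl rfl
  | mul y z _ _ hy hz =>
    rcases hy with rfl | ⟨b, hb, hyb⟩
    · rcases hz with rfl | ⟨c, hc, hzc⟩
      · left; simp
      · right; exact ⟨c, hc, by simpa using hzc⟩
    · rcases hz with rfl | ⟨c, hc, hzc⟩
      · right; exact ⟨b, hb, by simpa using hyb⟩
      · right
        rcases le_total b c with h | h
        · exact ⟨c, hc, mul_mem (Gle_mono h hyb) hzc⟩
        · exact ⟨b, hb, mul_mem hyb (Gle_mono h hzc)⟩
  | inv y _ hy =>
    rcases hy with rfl | ⟨b, hb, hyb⟩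
    · left; simp
    · right; exact ⟨b, hb, inv_mem hyb⟩

variable [WellFoundedLT G]

/-- the level of `x` : the least `a` with `x ∈ Gle a` -/
noncomputable def lev (x : G) : G :=
  WellFounded.min (wellFounded_lt : WellFounded ((· < ·) : G → G → Prop)) {a | x ∈ Gle a}
    ⟨x, mem_Gle_self x⟩

theorem mem_Gle_lev (x : G) : x ∈ Gle (lev x) :=
  WellFounded.min_mem (wellFounded_lt : WellFounded ((· < ·) : G → G → Prop)) {a | x ∈ Gle a}
    ⟨x, mem_Gle_self x⟩

theorem lev_le {x a : G} (h : x ∈ Gle a) : lev x ≤ a :=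
  not_lt.1 (WellFounded.not_lt_min
    (wellFounded_lt : WellFounded ((· < ·) : G → G → Prop)) {a | x ∈ Gle a} h)

theorem not_mem_Glt_lev {x : G} (hx : x ≠ 1) : x ∉ Glt (lev x) := by
  intro h
  rcases exists_of_mem_closure (Set.Iio (lev x)) h with h1 | ⟨b, hb, hxb⟩
  · exact hx h1
  · exact absurd (lev_le hxb) (not_le.2 hb)

theorem lev_eq {x a : G} (h : x ∈ Gle a) (h' : x ∉ Glt a) : lev x = a := by
  refine le_antisymm (lev_le h) (not_lt.1 fun hlt => h' ?_)
  exact Gle_le_Glt hlt (mem_Gle_lev x)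

theorem lev_lt_of_mem_Glt {x a : G} (hx : x ≠ 1) (h : x ∈ Glt a) : lev x < a := by
  rcases exists_of_mem_closure (Set.Iio a) h with h1 | ⟨b, hb, hxb⟩
  · exact absurd h1 hx
  · exact lt_of_le_of_lt (lev_le hxb) hb

/-- rank function: `⊥` for `1`, and the level otherwise -/
noncomputable def rk (x : G) : WithBot G := by
  classical exact if x = 1 then ⊥ else ((lev x : G) : WithBot G)

theorem rk_one : rk (1 : G) = ⊥ := by simp [rk]

theorem rk_of_ne {x : G} (hx : x ≠ 1) : rk x = ((lev x : G) : WithBot G) := by simp [rk, hx]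

theorem rk_lt_of_mem {x y : G} (hx : x ≠ 1) (h : y ∈ Glt (lev x)) : rk y < rk x := by
  rw [rk_of_ne hx]
  by_cases hy : y = 1
  · rw [hy, rk_one]; exact WithBot.bot_lt_coe _
  · rw [rk_of_ne hy]; exact WithBot.coe_lt_coe.2 (lev_lt_of_mem_Glt hy h)

/-- canonical representative of the left coset `x * Glt a` -/
noncomputable def rep (a x : G) : G := ((x : G ⧸ Glt a)).out

theorem rep_inv_mul_mem (a x : G) : (rep a x)⁻¹ * x ∈ Glt a := by
  have h : ((rep a x : G) : G ⧸ Glt a) = (x : G ⧸ Glt a) := by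
    unfold rep; exact Quotient.out_eq' _
  exact QuotientGroup.eq.1 h

theorem rep_mul (a x w : G) (hw : w ∈ Glt a) : rep a (x * w) = rep a x := by
  have h : ((x * w : G) : G ⧸ Glt a) = (x : G ⧸ Glt a) := by
    rw [eq_comm]
    refine QuotientGroup.eq.2 ?_
    simpa using hw
  unfold rep; rw [h]

/-- left reduction of `x` -/
noncomputable def lft (x : G) : G := (rep (lev x) x)⁻¹ * x

/-- right reduction of `x` -/
noncomputable def rgt (x : G) : G := x * rep (lev x) x⁻¹

theorem lft_mem (x : G) : lft x ∈ Glt (lev x) := rep_inv_mul_mem _ _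

theorem rgt_mem (x : G) : rgt x ∈ Glt (lev x) := by
  have h := rep_inv_mul_mem (lev x) x⁻¹
  have h2 := inv_mem h
  simpa [rgt] using h2

theorem lft_mul {x w : G} (hx : x ≠ 1) (hw : w ∈ Glt (lev x)) : lft (x * w) = lft x * w := by
  have h1 : lev (x * w) = lev x := by
    refine lev_eq (mul_mem (mem_Gle_lev x) (Glt_le_Gle _ hw)) ?_
    intro h
    exact not_mem_Glt_lev hx (by simpa using mul_mem h (inv_mem hw))
  unfold lft
  rw [h1, rep_mul _ _ _ hw, mul_assoc]

theorem rgt_mul {x w : G} (hx : x ≠ 1) (hw : w ∈ Glt (lev x)) : rgt (w * x) = w * rgt x := by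
  have h1 : lev (w * x) = lev x := by
    refine lev_eq (mul_mem (Glt_le_Gle _ hw) (mem_Gle_lev x)) ?_
    intro h
    exact not_mem_Glt_lev hx (by simpa using mul_mem (inv_mem hw) h)
  unfold rgt
  rw [h1, mul_inv_rev, rep_mul _ _ _ (inv_mem hw), mul_assoc]

theorem mul_ne_one_of_mem {x w : G} (hx : x ≠ 1) (hw : w ∈ Glt (lev x)) : w * x ≠ 1 := by
  intro e
  have h : x = w⁻¹ := eq_inv_of_mul_eq_one_right e
  have h2 : x ∈ Glt (lev x) := by
    have h3 := inv_mem hw
    rw [← h] at h3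
    exact h3
  exact not_mem_Glt_lev hx h2

/-- existence of the colouring -/
theorem exists_colouring (cc : G → G → ℕ) :
    ∃ c : G → ℕ, ∀ x : G, x ≠ 1 →
      cc (lev x) x ≤ c x ∧ c (lft x) ≤ c x ∧ c (rgt x) + 1 ≤ c x := by
  classical
  have wf : WellFounded (InvImage ((· < ·) : WithBot G → WithBot G → Prop) (rk : G → WithBot G)) :=
    InvImage.wf _ wellFounded_lt
  let Φ : (x : G) → ((y : G) → InvImage (· < ·) rk y x → ℕ) → ℕ := fun x rec =>
    if hx : x = 1 then 0 else
      max (cc (lev x) x) (max (rec (lft x) (rk_lt_of_mem hx (lft_mem x)))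
        (rec (rgt x) (rk_lt_of_mem hx (rgt_mem x)) + 1))
  refine ⟨wf.fix Φ, fun x hx => ?_⟩
  have h := wf.fix_eq Φ x
  have h2 : wf.fix Φ x = max (cc (lev x) x) (max (wf.fix Φ (lft x)) (wf.fix Φ (rgt x) + 1)) := by
    rw [h]; simp only [Φ, hx, dif_neg, not_false_eq_true]
  rw [h2]
  refine ⟨le_max_left _ _, ?_, ?_⟩
  · exact (le_max_left _ _).trans (le_max_right _ _)
  · exact (le_max_right _ _).trans (le_max_right _ _)

/-- colourings that are good inside a subgroup -/
def GoodOn (U : Subgroup G) : Prop :=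
  ∃ c : G → ℕ, ∀ μ : Cardinal.{u}, ℵ₀ ≤ μ → μ < #U → ∀ H : Set G, H ⊆ U → #H ≤ μ →
    ∃ K : Set G, K ⊆ U ∧ #K ≤ μ ∧ ∀ g ∈ U, ∀ n : ℕ, ∃ k ∈ K, ∀ h ∈ H, n < c (h * k * g)

section step

variable (c : G → ℕ) (cc : G → G → ℕ)
  (hc : ∀ x : G, x ≠ 1 → cc (lev x) x ≤ c x ∧ c (lft x) ≤ c x ∧ c (rgt x) + 1 ≤ c x)

include hc

/-- left reduction -/
theorem left_reduction (N : Subgroup G) (hN : ∀ h ∈ N, lft h ∈ N) (U : Subgroup G)
    (hU : ∀ x : G, x ∉ U → U ≤ Glt (lev x)) {w : G} (hw : w ∈ U) (n : ℕ)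
    (h1 : ∀ h ∈ N, h ∈ U → n < c (h * w)) : ∀ h ∈ N, n < c (h * w) := by
  have key : ∀ r : WithBot G, ∀ h : G, rk h = r → h ∈ N → n < c (h * w) := by
    intro r
    induction r using WellFoundedLT.induction with
    | ind r ih =>
      intro h hr hh
      by_cases hhU : h ∈ U
      · exact h1 h hh hhU
      · have hne : h ≠ 1 := fun e => hhU (e ▸ one_mem U)
        have hwl : w ∈ Glt (lev h) := hU h hhU hw
        have hne' : h * w ≠ 1 := by
          intro e
          have : h = w⁻¹ := eq_inv_of_mul_eq_one_left e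
          exact hhU (this ▸ inv_mem hw)
        have h3 := (hc (h * w) hne').2.1
        rw [lft_mul hne hwl] at h3
        have h4 : rk (lft h) < r := hr ▸ rk_lt_of_mem hne (lft_mem h)
        exact lt_of_lt_of_le (ih _ h4 (lft h) rfl (hN h hh)) h3
  exact fun h hh => key _ h rfl hh

/-- star decomposition -/
theorem star_decomposition (γ : G) (g : G) :
    ∃ g' ∈ Gle γ, ∀ u ∈ Gle γ, c (u * g') ≤ c (u * g) := by
  have key : ∀ r : WithBot G, ∀ g : G, rk g = r →
      ∃ g' ∈ Gle γ, ∀ u ∈ Gle γ, c (u * g') ≤ c (u * g) := by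
    intro r
    induction r using WellFoundedLT.induction with
    | ind r ih =>
      intro g hr
      by_cases hg : g ∈ Gle γ
      · exact ⟨g, hg, fun u _ => le_rfl⟩
      · have hne : g ≠ 1 := fun e => hg (e ▸ one_mem _)
        have hlt : γ < lev g := by
          by_contra hcon
          exact hg (Gle_mono (not_lt.1 hcon) (mem_Gle_lev g))
        obtain ⟨g', hg', h2⟩ := ih _ (hr ▸ rk_lt_of_mem hne (rgt_mem g)) (rgt g) rfl
        refine ⟨g', hg', fun u hu => (h2 u hu).trans ?_⟩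
        have hu' : u ∈ Glt (lev g) := Gle_le_Glt hlt hu
        have hne' : u * g ≠ 1 := by
          intro e
          have : g = u⁻¹ := eq_inv_of_mul_eq_one_right e
          exact hg (this ▸ inv_mem hu)
        have h3 := (hc (u * g) hne').2.2
        rw [rgt_mul hne hu'] at h3
        omega
  exact key _ g rfl

end step

/-- The inductive step: if all subgroups `Gle a` have good colourings, so has `G`. -/
theorem main_step (ih : ∀ a : G, GoodOn (Gle a)) :
    ∃ c : G → ℕ, ∀ μ : Cardinal.{u}, ℵ₀ ≤ μ → μ < #G → ∀ H : Set G, #H ≤ μ →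
      ∃ K : Set G, #K ≤ μ ∧ ∀ g : G, ∀ n : ℕ, ∃ k ∈ K, ∀ h ∈ H, n < c (h * k * g) := by
  classical
  choose cc hcc using ih
  obtain ⟨c, hc⟩ := exists_colouring cc
  refine ⟨c, fun μ hμ hμG H hH => ?_⟩
  have h1μ : (1 : Cardinal.{u}) ≤ μ := le_trans (le_of_lt Cardinal.one_lt_aleph0) hμ
  -- the initial segment of type `μ⁺`
  obtain ⟨B, hB⟩ : ∃ B : Set G, B = {b | #(Set.Iio b) ≤ μ} := ⟨_, rfl⟩
  have hBmem : ∀ b, b ∈ B ↔ #(Set.Iio b) ≤ μ := fun b => by rw [hB]; rfl
  have hBdown : ∀ b ∈ B, ∀ a, a ≤ b → a ∈ B := by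
    intro b hb a hab
    rw [hBmem] at hb ⊢
    exact (Cardinal.mk_le_mk_of_subset (Set.Iio_subset_Iio hab)).trans hb
  have hBcard : μ < #B := by
    by_contra hcon
    have hcon : #B ≤ μ := not_lt.1 hcon
    have hne : (Bᶜ : Set G).Nonempty := by
      by_contra hemp
      rw [Set.not_nonempty_iff_eq_empty, Set.compl_empty_iff] at hemp
      rw [hemp, Cardinal.mk_univ] at hcon
      exact absurd hμG (not_lt.2 hcon)
    have wf : WellFounded ((· < ·) : G → G → Prop) := wellFounded_lt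
    have hb0 : wf.min (Bᶜ) hne ∉ B := wf.min_mem (Bᶜ) hne
    apply hb0
    rw [hBmem]
    refine (Cardinal.mk_le_mk_of_subset ?_).trans hcon
    intro y hy
    by_contra hyB
    exact wf.not_lt_min (Bᶜ) hyB hy
  obtain ⟨b1, hb1⟩ : B.Nonempty := by
    by_contra hemp
    rw [Set.not_nonempty_iff_eq_empty] at hemp
    rw [hemp] at hBcard
    simp at hBcard
  have hIicB : ∀ b ∈ B, #(Set.Iic b) ≤ μ := by
    intro b hb
    rw [hBmem] at hb
    have : Set.Iic b = Set.Iio b ∪ {b} := by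
      ext y; simp [le_iff_lt_or_eq]
    rw [this]
    calc #(Set.Iio b ∪ {b} : Set G) ≤ #(Set.Iio b) + #({b} : Set G) := Cardinal.mk_union_le _ _
      _ ≤ μ + μ := add_le_add hb (by simpa using h1μ)
      _ = μ := Cardinal.add_eq_self hμ
  have hGleB : ∀ b ∈ B, #(Gle b) ≤ μ := fun b hb => mk_closure_le μ hμ _ (hIicB b hb)
  obtain ⟨GB, hGB⟩ : ∃ GB : Subgroup G, GB = Subgroup.closure B := ⟨_, rfl⟩
  have hBGB : ∀ b ∈ B, Gle b ≤ GB := by
    intro b hb
    rw [hGB]
    exact Subgroup.closure_mono fun y hy => hBdown b hb y hy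
  have hGBex : ∀ x ∈ GB, ∃ b ∈ B, x ∈ Gle b := by
    intro x hx
    rw [hGB] at hx
    rcases exists_of_mem_closure B hx with rfl | h
    · exact ⟨b1, hb1, one_mem _⟩
    · exact h
  have hGBlt : ∀ a, a ∉ B → GB ≤ Glt a := by
    intro a ha
    rw [hGB]
    refine Subgroup.closure_mono fun b hb => ?_
    by_contra hcon
    exact ha (hBdown b hb a (not_lt.1 hcon))
  have hlevB : ∀ x, x ∉ GB → lev x ∉ B := fun x hx hcon => hx (hBGB _ hcon (mem_Gle_lev x))
  have hbound : ∀ S : Set G, S ⊆ GB → #S ≤ μ → ∃ b ∈ B, S ⊆ Gle b := by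
    intro S hS hSc
    choose β hβB hβ using fun s : S => hGBex s.1 (hS s.2)
    have hW : #(⋃ s : S, Set.Iic (β s) : Set G) ≤ μ := by
      refine (Cardinal.mk_iUnion_le _).trans ?_
      have h2 : (⨆ s : S, #(Set.Iic (β s))) ≤ μ := ciSup_le' fun s => hIicB _ (hβB s)
      calc #S * (⨆ s : S, #(Set.Iic (β s))) ≤ μ * μ := mul_le_mul' hSc h2
        _ = μ := Cardinal.mul_eq_self hμ
    have hex : ∃ b ∈ B, b ∉ (⋃ s : S, Set.Iic (β s) : Set G) := by
      by_contra hcon
      push Not at hcon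
      have : #B ≤ μ := (Cardinal.mk_le_mk_of_subset (fun b hb => hcon b hb)).trans hW
      exact absurd hBcard (not_lt.2 this)
    obtain ⟨b, hbB, hb⟩ := hex
    refine ⟨b, hbB, fun s hs => ?_⟩
    have h3 : β ⟨s, hs⟩ ≤ b := by
      by_contra hcon
      exact hb (Set.mem_iUnion.2 ⟨⟨s, hs⟩, (not_le.1 hcon).le⟩)
    exact Gle_mono h3 (hβ ⟨s, hs⟩)
  -- the closure `N` of `H`
  obtain ⟨N, hHN, hNc, hNl⟩ := exists_subgroup_closed μ hμ H hH (fun x => {lft x})
    (fun x => by simpa using h1μ)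
  have hNl' : ∀ h ∈ N, lft h ∈ N := fun h hh => hNl h hh rfl
  obtain ⟨δ0, hδ0B, hδ0⟩ := hbound ((N : Set G) ∩ GB) Set.inter_subset_right
    ((Cardinal.mk_le_mk_of_subset Set.inter_subset_left).trans hNc)
  -- the elements `k n`
  have hkn : ∀ n : ℕ, ∃ k ∈ GB, ∀ h ∈ Gle δ0, n ≤ c (h * k) := by
    intro n
    induction n with
    | zero => exact ⟨1, one_mem _, fun h _ => Nat.zero_le _⟩
    | succ n ihn =>
      obtain ⟨k, hk, hkc⟩ := ihn
      obtain ⟨γ0, hγ0, hkγ0⟩ := hGBex k hk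
      obtain ⟨γ, hγB, hδγ, hkγ⟩ : ∃ γ ∈ B, δ0 ≤ γ ∧ k ∈ Gle γ := by
        rcases le_total γ0 δ0 with h | h
        · exact ⟨δ0, hδ0B, le_rfl, Gle_mono h hkγ0⟩
        · exact ⟨γ0, hγ0, h, hkγ0⟩
      have hex : ∃ x ∈ GB, x ∉ Gle γ := by
        by_contra hcon
        push Not at hcon
        have : #B ≤ μ := by
          refine (Cardinal.mk_le_mk_of_subset (t := (Gle γ : Set G)) (fun b hb => ?_)).trans
            (hGleB γ hγB)
          exact hcon b (hBGB b hb (mem_Gle_self b))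
        exact absurd hBcard (not_lt.2 this)
      obtain ⟨x, hxGB, hxγ⟩ := hex
      have hγx : γ < lev x := by
        by_contra hcon
        exact hxγ (Gle_mono (not_lt.1 hcon) (mem_Gle_lev x))
      have hx1 : x ≠ 1 := fun e => hxγ (e ▸ one_mem _)
      have hlx : lev x ∈ B := by
        obtain ⟨b, hb, hxb⟩ := hGBex x hxGB
        exact hBdown b hb _ (lev_le hxb)
      refine ⟨k * (rgt x)⁻¹ * x, ?_, fun h hh => ?_⟩
      · refine mul_mem (mul_mem hk (inv_mem ?_)) hxGB
        exact hBGB _ hlx (Glt_le_Gle _ (rgt_mem x))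
      · have hw : h * k * (rgt x)⁻¹ ∈ Glt (lev x) :=
          mul_mem (mul_mem (Gle_le_Glt hγx (Gle_mono hδγ hh)) (Gle_le_Glt hγx hkγ))
            (inv_mem (rgt_mem x))
        have hne : h * k * (rgt x)⁻¹ * x ≠ 1 := mul_ne_one_of_mem hx1 hw
        have h3 := (hc _ hne).2.2
        rw [rgt_mul hx1 hw] at h3
        have h4 : h * k * (rgt x)⁻¹ * rgt x = h * k := by group
        rw [h4] at h3
        have h5 := hkc h hh
        have h6 : h * (k * (rgt x)⁻¹ * x) = h * k * (rgt x)⁻¹ * x := by group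
        rw [h6]
        omega
  choose kk hkkGB hkk using hkn
  obtain ⟨δ, hδB, hδ0δ, hkkδ⟩ : ∃ δ ∈ B, δ0 ≤ δ ∧ ∀ n, kk n ∈ Gle δ := by
    obtain ⟨δ1, hδ1B, hδ1⟩ := hbound (Set.range kk) (by rintro _ ⟨n, rfl⟩; exact hkkGB n)
      (by
        have h1 : #(Set.range kk) ≤ ℵ₀ := Cardinal.mk_le_aleph0_iff.2 (Set.countable_range kk)
        exact h1.trans hμ)
    rcases le_total δ0 δ1 with h | h
    · exact ⟨δ1, hδ1B, h, fun n => hδ1 ⟨n, rfl⟩⟩
    · exact ⟨δ0, hδ0B, le_rfl, fun n => Gle_mono h (hδ1 ⟨n, rfl⟩)⟩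
  -- the sets `K a`
  have hKex : ∀ a : G, ∃ K : Set G, #K ≤ μ ∧ K ⊆ Gle a ∧
      (a ∉ B → ∀ g ∈ Gle a, ∀ n : ℕ, ∃ k ∈ K, ∀ h ∈ (N : Set G) ∩ Gle a, n < cc a (h * k * g)) := by
    intro a
    by_cases ha : a ∈ B
    · exact ⟨∅, by simp, by simp, fun h => absurd ha h⟩
    · have hlt : μ < #(Gle a) := by
        rw [hBmem, not_le] at ha
        refine ha.trans_le ?_
        exact Cardinal.mk_le_mk_of_subset (t := (Gle a : Set G))
          (fun y hy => Gle_mono (le_of_lt hy) (mem_Gle_self y))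
      obtain ⟨K, hK1, hK2, hK3⟩ := hcc a μ hμ hlt ((N : Set G) ∩ Gle a) Set.inter_subset_right
        ((Cardinal.mk_le_mk_of_subset Set.inter_subset_left).trans hNc)
      exact ⟨K, hK2, hK1, fun _ => hK3⟩
  choose KK hKKc hKKsub hKK using hKex
  -- the closure `M`
  obtain ⟨M, hM1, hMc, hMK⟩ := exists_subgroup_closed μ hμ ((N : Set G) ∪ (Gle δ : Set G))
    ((Cardinal.mk_union_le _ _).trans (by
      calc #(N : Set G) + #(Gle δ : Set G) ≤ μ + μ := add_le_add hNc (hGleB δ hδB)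
        _ = μ := Cardinal.add_eq_self hμ))
    (fun x => KK (lev x)) (fun x => hKKc _)
  have hNM : ∀ x ∈ N, x ∈ M := fun x hx => hM1 (Or.inl hx)
  have hδM : ∀ x ∈ Gle δ, x ∈ M := fun x hx => hM1 (Or.inr hx)
  refine ⟨M, hMc, ?_⟩
  -- the claim
  have key : ∀ r : WithBot G, ∀ g : G, rk g = r → ∀ n : ℕ, ∃ k ∈ M, (g ∈ GB → k ∈ GB) ∧
      (g ∉ GB → k ∈ Gle (lev g)) ∧ ∀ h ∈ N, n < c (h * k * g) := by
    intro r
    induction r using WellFoundedLT.induction with
    | ind r ih =>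
    intro g hr n
    by_cases hg : g ∈ GB
    · -- the base case
      obtain ⟨g', hg', hstar⟩ := star_decomposition c cc hc δ g
      have hkδ : kk (n + 1) * g'⁻¹ ∈ Gle δ := mul_mem (hkkδ _) (inv_mem hg')
      refine ⟨kk (n + 1) * g'⁻¹, hδM _ hkδ, fun _ => hBGB δ hδB hkδ, fun h => absurd hg h, ?_⟩
      have hwGB : kk (n + 1) * g'⁻¹ * g ∈ GB := mul_mem (hBGB δ hδB hkδ) hg
      have hred := left_reduction c cc hc N hNl' GB (fun x hx => hGBlt _ (hlevB x hx)) hwGB n
        (by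
          intro h hhN hhGB
          have hhδ0 : h ∈ Gle δ0 := hδ0 ⟨hhN, hhGB⟩
          have h1 := hstar (h * (kk (n + 1) * g'⁻¹)) (mul_mem (Gle_mono hδ0δ hhδ0) hkδ)
          have h2 : h * (kk (n + 1) * g'⁻¹) * g' = h * kk (n + 1) := by group
          have h3 : h * (kk (n + 1) * g'⁻¹) * g = h * (kk (n + 1) * g'⁻¹ * g) := by group
          rw [h2, h3] at h1
          have h4 := hkk (n + 1) h hhδ0
          omega)
      intro h hh
      have h5 := hred h hh
      rwa [← mul_assoc] at h5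
    · have hα : lev g ∉ B := hlevB g hg
      have hg1 : g ≠ 1 := fun e => hg (e ▸ one_mem _)
      have hgα : g ∉ Glt (lev g) := not_mem_Glt_lev hg1
      have hgα' : g ∈ Gle (lev g) := mem_Gle_lev g
      have hGBα : GB ≤ Glt (lev g) := hGBlt _ hα
      have hUred : ∀ x : G, x ∉ Gle (lev g) → Gle (lev g) ≤ Glt (lev x) := by
        intro x hx
        refine Gle_le_Glt ?_
        by_contra hcon
        exact hx (Gle_mono (not_lt.1 hcon) (mem_Gle_lev x))
      -- smaller elements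
      have hsmall : ∀ g1 ∈ Glt (lev g), ∃ k ∈ M, k ∈ Glt (lev g) ∧ ∀ h ∈ N, n < c (h * k * g1) := by
        intro g1 hg1'
        obtain ⟨k, hkM, hk1, hk2, hk3⟩ := ih _ (hr ▸ rk_lt_of_mem hg1 hg1') g1 rfl n
        refine ⟨k, hkM, ?_, hk3⟩
        by_cases hgB : g1 ∈ GB
        · exact hGBα (hk1 hgB)
        · have hne : g1 ≠ 1 := fun e => hgB (e ▸ one_mem _)
          exact Gle_le_Glt (lev_lt_of_mem_Glt hne hg1') (hk2 hgB)
      by_cases hm : ∃ m ∈ M, m ∈ Gle (lev g) ∧ m * g ∈ Glt (lev g)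
      · obtain ⟨m, hmM, hmα, hmg⟩ := hm
        obtain ⟨k, hkM, hkα, hk⟩ := hsmall _ hmg
        refine ⟨k * m, mul_mem hkM hmM, fun h => absurd h hg,
          fun _ => mul_mem (Glt_le_Gle _ hkα) hmα, fun h hh => ?_⟩
        have h1 := hk h hh
        have h2 : h * (k * m) * g = h * k * (m * g) := by group
        rw [h2]; exact h1
      · push Not at hm
        by_cases hM : ∃ m ∈ M, m ∈ Gle (lev g) ∧ m ∉ Glt (lev g)
        · -- case 2
          obtain ⟨m, hmM, hmα, hmα'⟩ := hM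
          have hlm : lev m = lev g := lev_eq hmα hmα'
          have hKM : KK (lev g) ⊆ M := by
            have := hMK m hmM
            rwa [hlm] at this
          obtain ⟨k, hkK, hk⟩ := hKK (lev g) hα g hgα' n
          have hkα : k ∈ Gle (lev g) := hKKsub _ hkK
          have hkM : k ∈ M := hKM hkK
          refine ⟨k, hkM, fun h => absurd h hg, fun _ => hkα, ?_⟩
          have hred := left_reduction c cc hc N hNl' (Gle (lev g)) hUred
            (mul_mem hkα hgα') n (by
              intro h hhN hhα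
              have h1 := hm (h * k) (mul_mem (hNM h hhN) hkM) (mul_mem hhα hkα)
              have h2 : h * k * g ∈ Gle (lev g) := mul_mem (mul_mem hhα hkα) hgα'
              have h3 : lev (h * k * g) = lev g := lev_eq h2 h1
              have h4 : h * k * g ≠ 1 := fun e => h1 (e ▸ one_mem _)
              have h5 := (hc _ h4).1
              rw [h3] at h5
              have h6 := hk h ⟨hhN, hhα⟩
              rw [← mul_assoc]
              exact lt_of_lt_of_le h6 h5)
          intro h hh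
          have h5 := hred h hh
          rwa [← mul_assoc] at h5
        · -- case 1
          push Not at hM
          obtain ⟨k, hkM, hkα, hk⟩ := hsmall _ (rgt_mem g)
          refine ⟨k, hkM, fun h => absurd h hg, fun _ => Glt_le_Gle _ hkα, ?_⟩
          have hred := left_reduction c cc hc N hNl' (Gle (lev g)) hUred
            (mul_mem (Glt_le_Gle _ hkα) hgα') n (by
              intro h hhN hhα
              have h1 : h ∈ Glt (lev g) := hM h (hNM h hhN) hhα
              have h2 : h * k ∈ Glt (lev g) := mul_mem h1 hkα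
              have h3 : h * k * g ≠ 1 := mul_ne_one_of_mem hg1 h2
              have h4 := (hc _ h3).2.2
              rw [rgt_mul hg1 h2] at h4
              have h5 := hk h hhN
              rw [← mul_assoc]
              omega)
          intro h hh
          have h5 := hred h hh
          rwa [← mul_assoc] at h5
  intro g n
  obtain ⟨k, hkM, _, _, hk⟩ := key _ g rfl n
  exact ⟨k, hkM, fun h hh => hk h (hHN hh)⟩

end levels

/-- a good colouring of a subgroup (as a group) is good inside the subgroup -/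
theorem goodOn_of_good (U : Subgroup G)
    (hU : ∃ c : U → ℕ, ∀ μ : Cardinal.{u}, ℵ₀ ≤ μ → μ < #U → ∀ H : Set U, #H ≤ μ →
      ∃ K : Set U, #K ≤ μ ∧ ∀ g : U, ∀ n : ℕ, ∃ k ∈ K, ∀ h ∈ H, n < c (h * k * g)) :
    GoodOn U := by
  classical
  obtain ⟨c, hc⟩ := hU
  refine ⟨fun x => if hx : x ∈ U then c ⟨x, hx⟩ else 0, fun μ hμ hμU H hHU hH => ?_⟩
  have h1 : #(Subtype.val ⁻¹' H : Set U) ≤ μ := by
    refine le_trans ?_ hH
    exact Cardinal.mk_preimage_of_injective _ _ Subtype.val_injective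
  obtain ⟨K, hKc, hK⟩ := hc μ hμ hμU (Subtype.val ⁻¹' H) h1
  refine ⟨Subtype.val '' K, ?_, ?_, ?_⟩
  · rintro _ ⟨k, _, rfl⟩; exact k.2
  · exact Cardinal.mk_image_le.trans hKc
  · intro g hg n
    obtain ⟨k, hk, hkk⟩ := hK ⟨g, hg⟩ n
    refine ⟨k, ⟨k, hk, rfl⟩, fun h hh => ?_⟩
    have h2 := hkk ⟨h, hHU hh⟩ hh
    have h3 : h * (k : G) * g ∈ U := mul_mem (mul_mem (hHU hh) k.2) hg
    simp only [h3, dif_pos]
    exact h2

/-- Every group has a good colouring. -/
theorem good : ∀ κ : Cardinal.{u}, ∀ (G : Type u) [Group G], #G = κ →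
    ∃ c : G → ℕ, ∀ μ : Cardinal.{u}, ℵ₀ ≤ μ → μ < #G → ∀ H : Set G, #H ≤ μ →
      ∃ K : Set G, #K ≤ μ ∧ ∀ g : G, ∀ n : ℕ, ∃ k ∈ K, ∀ h ∈ H, n < c (h * k * g) := by
  intro κ
  induction κ using WellFoundedLT.induction with
  | ind κ ih =>
  intro G _ hGκ
  by_cases hG : ℵ₀ < #G
  · obtain ⟨r, wo, hr⟩ := Cardinal.exists_ord_eq G
    let _ : LinearOrder G := IsWellOrder.linearOrder r
    have wf : WellFoundedLT G := ⟨wo.wf⟩
    have hIio : ∀ a : G, #(Set.Iio a) < #G := fun a => Cardinal.card_typein_lt a hr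
    have hIic : ∀ a : G, #(Set.Iic a) < #G := by
      intro a
      have : Set.Iic a = Set.Iio a ∪ {a} := by
        ext y; simp [le_iff_lt_or_eq]
      rw [this]
      refine (Cardinal.mk_union_le _ _).trans_lt ?_
      refine Cardinal.add_lt_of_lt hG.le (hIio a) ?_
      rw [Cardinal.mk_singleton]
      exact Cardinal.one_lt_aleph0.trans hG
    refine main_step fun a => goodOn_of_good _ ?_
    refine ih _ ?_ (Gle a) rfl
    rw [← hGκ]
    have h1 : #(Gle a) ≤ max #(Set.Iic a) ℵ₀ :=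
      mk_closure_le _ (le_max_right _ _) _ (le_max_left _ _)
    exact h1.trans_lt (max_lt (hIic a) hG)
  · refine ⟨fun _ => 0, fun μ hμ hμG => ?_⟩
    exact absurd (hμ.trans_lt hμG) hG

/-- One sided version for all infinite groups. -/
theorem one_sided (G : Type u) [Group G] [Infinite G] :
    ∃ c : G → ℕ, ∀ n : ℕ, ∀ H : Set G, #H < #G →
      ∃ K : Set G, #K < #G ∧ ∀ g : G, ∃ k ∈ K, ∀ h ∈ H, n < c (h * k * g) := by
  classical
  by_cases hG : ℵ₀ < #G
  · obtain ⟨c, hc⟩ := good #G G rfl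
    refine ⟨c, fun n H hH => ?_⟩
    obtain ⟨K, hK, hK'⟩ := hc (max #H ℵ₀) (le_max_right _ _) (max_lt hH hG) H (le_max_left _ _)
    exact ⟨K, hK.trans_lt (max_lt hH hG), fun g => hK' g n⟩
  · have hG' : #G = ℵ₀ := le_antisymm (not_lt.1 hG) (Cardinal.aleph0_le_mk G)
    have hct : Countable G := Cardinal.mk_le_aleph0_iff.1 hG'.le
    obtain ⟨c, hc⟩ := exists_injective_nat G
    refine ⟨c, fun n H hH => ?_⟩
    rw [hG'] at hH ⊢
    have hHfin : H.Finite := Cardinal.lt_aleph0_iff_set_finite.1 hH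
    -- the finite set of elements of colour at most `n`
    have hAfin : {x : G | c x ≤ n}.Finite :=
      Set.Finite.preimage hc.injOn (Set.finite_Iic n)
    -- the finite set `H⁻¹ A`
    have hBfin : (Set.image2 (fun h a => h⁻¹ * a) H {x : G | c x ≤ n}).Finite :=
      Set.Finite.image2 _ hHfin hAfin
    obtain ⟨B, hB⟩ : ∃ B : Finset G, (B : Set G) = Set.image2 (fun h a => h⁻¹ * a) H {x : G | c x ≤ n} :=
      ⟨hBfin.toFinset, by simp⟩
    obtain ⟨K, hK⟩ := Infinite.exists_subset_card_eq G (B.card + 1)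
    refine ⟨(K : Set G), Cardinal.lt_aleph0_iff_set_finite.2 K.finite_toSet, fun g => ?_⟩
    have hlt : B.card < (K.image (fun k => k * g)).card := by
      rw [Finset.card_image_of_injective _ (mul_left_injective g), hK]
      exact Nat.lt_succ_self _
    obtain ⟨y, hy, hyB⟩ := Finset.exists_mem_notMem_of_card_lt_card hlt
    obtain ⟨k, hk, rfl⟩ := Finset.mem_image.1 hy
    refine ⟨k, hk, fun h hh => ?_⟩
    by_contra hcon
    apply hyB
    rw [← Finset.mem_coe, hB]
    exact ⟨h, hh, h * k * g, not_lt.1 hcon, by group⟩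

/-- Main theorem: every infinite group is a union of countably many `|G|`-small sets. -/
theorem main (G : Type u) [Group G] [Infinite G] :
    ∃ f : G → ℕ, ∀ n : ℕ,
      (∀ L : Set G,
        (∃ F : Set G, Cardinal.mk F < Cardinal.mk G ∧
            ∀ g : G, ∃ x ∈ F, ∃ y ∈ L, g = x * y) →
        (∃ F : Set G, Cardinal.mk F < Cardinal.mk G ∧
            ∀ g : G, ∃ x ∈ F, ∃ y ∈ L, f y ≠ n ∧ g = x * y)) ∧
      (∀ L : Set G,
        (∃ F : Set G, Cardinal.mk F < Cardinal.mk G ∧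
            ∀ g : G, ∃ x ∈ F, ∃ y ∈ L, g = y * x) →
        (∃ F : Set G, Cardinal.mk F < Cardinal.mk G ∧
            ∀ g : G, ∃ x ∈ F, ∃ y ∈ L, f y ≠ n ∧ g = y * x)) := by
  classical
  have hinf : ℵ₀ ≤ #G := Cardinal.aleph0_le_mk G
  have hmul : ∀ A B : Set G, #A < #G → #B < #G →
      #(Set.image2 (fun a b => a * b) A B : Set G) < #G := by
    intro A B hA hB
    have h1 : #(Set.image2 (fun a b => a * b) A B : Set G) ≤ #A * #B := by
      have h2 : Set.image2 (fun a b => a * b) A B = Set.range (fun p : A × B => p.1.1 * p.2.1) := by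
        ext x
        constructor
        · rintro ⟨a, ha, b, hb, rfl⟩; exact ⟨(⟨a, ha⟩, ⟨b, hb⟩), rfl⟩
        · rintro ⟨⟨a, b⟩, rfl⟩; exact ⟨a, a.2, b, b.2, rfl⟩
      rw [h2]
      refine Cardinal.mk_range_le.trans ?_
      rw [Cardinal.mk_prod, Cardinal.lift_id, Cardinal.lift_id]
    exact h1.trans_lt (Cardinal.mul_lt_of_lt hinf hA hB)
  have hinv : ∀ A : Set G, #A < #G → #((fun a => a⁻¹) '' A : Set G) < #G :=
    fun A hA => Cardinal.mk_image_le.trans_lt hA
  obtain ⟨c, hc⟩ := one_sided G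
  refine ⟨fun x => Nat.pair (c x) (c x⁻¹), fun n => ⟨?_, ?_⟩⟩
  · rintro L ⟨F, hF, hL⟩
    obtain ⟨K, hK, hKp⟩ := hc (Nat.unpair n).1 ((fun a => a⁻¹) '' F) (hinv F hF)
    refine ⟨Set.image2 (fun a b => a * b) ((fun a => a⁻¹) '' K) F, hmul _ _ (hinv K hK) hF,
      fun g => ?_⟩
    obtain ⟨k, hk, hkp⟩ := hKp g
    obtain ⟨x, hx, y, hy, hxy⟩ := hL (k * g)
    refine ⟨k⁻¹ * x, ⟨k⁻¹, ⟨k, hk, rfl⟩, x, hx, rfl⟩, y, hy, ?_, ?_⟩
    · intro hn
      have h1 := hkp x⁻¹ ⟨x, hx, rfl⟩
      have h2 : x⁻¹ * k * g = y := by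
        rw [mul_assoc, hxy]; group
      rw [h2] at h1
      have h3 : (Nat.unpair n).1 = c y := by rw [← hn]; simp
      omega
    · rw [mul_assoc, ← hxy]; group
  · rintro L ⟨F, hF, hL⟩
    obtain ⟨K, hK, hKp⟩ := hc (Nat.unpair n).2 F hF
    refine ⟨Set.image2 (fun a b => a * b) F K, hmul _ _ hF hK, fun g => ?_⟩
    obtain ⟨k, hk, hkp⟩ := hKp g⁻¹
    obtain ⟨x, hx, y, hy, hxy⟩ := hL (g * k⁻¹)
    refine ⟨x * k, ⟨x, hx, k, hk, rfl⟩, y, hy, ?_, ?_⟩
    · intro hn
      have h1 := hkp x hx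
      have h2 : x * k * g⁻¹ = y⁻¹ := by
        have h3 : y = g * k⁻¹ * x⁻¹ := by rw [hxy]; group
        rw [h3]; group
      rw [h2] at h1
      have h3 : (Nat.unpair n).2 = c y⁻¹ := by rw [← hn]; simp
      omega
    · rw [← mul_assoc, ← hxy]; group

end Pool.Agent.Lib_helper94.SmallPartition
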